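import Pool.Agent.Q19.SU.Gen

/-!
Homomorphisms with cyclic kernels and scalars on the primary torsion (helper495).
-/

set_option autoImplicit false

namespace Pool.Agent.N495.GO

open Pool.Agent.Q19.SU.Gen

section
variable {V W : Type*} [AddCommGroup V] [AddCommGroup W]

theorem div_of {l : ℕ} (hl : l.Prime) {s t : ℕ} {P Q : V} (h : Bas (l ^ (s + t)) P Q) {z : V}
    (hz : ((l : ℤ) ^ s) • z = 0) :
    ∃ z' : V, ((l : ℤ) ^ (s + t)) • z' = 0 ∧ ((l : ℤ) ^ t) • z' = z := by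
  have hl0 : (l : ℤ) ≠ 0 := by exact_mod_cast hl.ne_zero
  have hz' : (((l ^ (s + t) : ℕ)) : ℤ) • z = 0 := by
    push_cast
    rw [pow_add, mul_comm, mul_smul, hz, smul_zero]
  obtain ⟨a, b, hab⟩ := h.span z hz'
  have e1 : ((l : ℤ) ^ s * a) • P + ((l : ℤ) ^ s * b) • Q = 0 := by
    rw [mul_smul, mul_smul, ← smul_add, ← hab, hz]
  obtain ⟨h1, h2⟩ := h.ind _ _ e1
  push_cast at h1 h2
  rw [pow_add] at h1 h2
  have h1' := (mul_dvd_mul_iff_left (pow_ne_zero s hl0)).1 h1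
  have h2' := (mul_dvd_mul_iff_left (pow_ne_zero s hl0)).1 h2
  obtain ⟨a', ha'⟩ := h1'
  obtain ⟨b', hb'⟩ := h2'
  have hP := h.hP
  have hQ := h.hQ
  push_cast at hP hQ
  refine ⟨a' • P + b' • Q, ?_, ?_⟩
  · rw [smul_add, smul_comm, hP, smul_zero, zero_add, smul_comm, hQ, smul_zero]
  · rw [hab, ha', hb', smul_add, mul_smul, mul_smul]

/-- `θ` acts as an integer on the elements killed by `l ^ s` -/
theorem scalar {l : ℕ} (hl : l.Prime) {D s v D' : ℕ} (hD : D = l ^ v * D') (hD' : ¬ l ∣ D')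
    {P Q : V} (h : Bas (l ^ (s + v)) P Q) (θ T₁ T₂ : V →+ V)
    (h1P : T₁ P = P) (h1Q : T₁ Q = Q + (D : ℤ) • P)
    (h2P : T₂ P = P + (D : ℤ) • Q) (h2Q : T₂ Q = Q)
    (hc1 : ∀ x, θ (T₁ x) = T₁ (θ x)) (hc2 : ∀ x, θ (T₂ x) = T₂ (θ x)) :
    ∃ a : ℤ, ∀ z : V, ((l : ℤ) ^ s) • z = 0 → θ z = a • z := by
  have hl0 : (l : ℤ) ≠ 0 := by exact_mod_cast hl.ne_zero
  obtain ⟨a, c, hac⟩ := h.span (θ P) (by rw [← map_zsmul, h.hP, map_zero])
  obtain ⟨b, e, hbe⟩ := h.span (θ Q) (by rw [← map_zsmul, h.hQ, map_zero])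
  have e1 := hc1 Q
  rw [h1Q, map_add, map_zsmul, hbe, map_add, map_zsmul, map_zsmul, h1P, h1Q] at e1
  have f1 : (D : ℤ) • θ P = (e * D) • P := by
    have : b • P + e • (Q + (D : ℤ) • P) = (b • P + e • Q) + (e * D) • P := by module
    rw [this] at e1
    exact add_left_cancel e1
  have e2 := hc2 P
  rw [h2P, map_add, map_zsmul, hac, map_add, map_zsmul, map_zsmul, h2P, h2Q] at e2
  have f2 : (D : ℤ) • θ Q = (a * D) • Q := by
    have : a • (P + (D : ℤ) • Q) + c • Q = (a • P + c • Q) + (a * D) • Q := by module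
    rw [this] at e2
    exact add_left_cancel e2
  have f3 : (D * a - e * D) • P + (D * c : ℤ) • Q = 0 := by
    rw [hac] at f1
    have : (D * a - e * D : ℤ) • P + (D * c : ℤ) • Q = (D : ℤ) • (a • P + c • Q) - (e * D) • P := by
      module
    rw [this, f1, sub_self]
  obtain ⟨g1, -⟩ := h.ind _ _ f3
  have f4 : (D : ℤ) • θ P = (a * D) • P := by
    rw [f1]
    refine (smul_congr h.hP ?_).symm
    have : a * D - e * D = D * a - e * D := by ring
    rw [this]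
    exact g1
  refine ⟨a, fun z hz => ?_⟩
  obtain ⟨z', hz', hzz⟩ := div_of hl h hz
  have hcop : IsCoprime (D' : ℤ) ((l : ℤ) ^ (s + v)) := by
    have := Nat.isCoprime_iff_coprime.2
      (Nat.Coprime.pow_right (s + v) ((Nat.Prime.coprime_iff_not_dvd hl).2 hD').symm)
    push_cast at this
    exact this
  obtain ⟨u, w, huw⟩ := hcop
  obtain ⟨α, β, hαβ⟩ := h.span (u • z') (by
    push_cast
    rw [smul_comm, hz', smul_zero])
  have g2 : z = (D : ℤ) • (u • z') := by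
    have : (D : ℤ) • (u • z') = ((l : ℤ) ^ v) • ((u * D') • z') := by
      rw [hD]
      push_cast
      module
    rw [this]
    have h3 : u * D' = 1 - w * (l : ℤ) ^ (s + v) := by linear_combination huw
    rw [h3, sub_smul, one_smul, mul_smul, hz', smul_zero, sub_zero, hzz]
  have g3 : θ z = (D : ℤ) • θ (u • z') := by rw [g2, map_zsmul]
  rw [g3, hαβ, map_add, map_zsmul, map_zsmul, smul_add]
  have g4 : (D : ℤ) • α • θ P = (a * D * α) • P := by
    rw [smul_comm, f4, smul_smul]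
    congr 1
    ring
  have g5 : (D : ℤ) • β • θ Q = (a * D * β) • Q := by
    rw [smul_comm, f2, smul_smul]
    congr 1
    ring
  rw [g4, g5, g2, hαβ]
  module

/-- a cyclic group has no two independent elements -/
theorem not_cyc {l : ℕ} (hl : l.Prime) {P Q y : V} (h : Bas l P Q)
    (hP : P ∈ AddSubgroup.zmultiples y) (hQ : Q ∈ AddSubgroup.zmultiples y) : False := by
  obtain ⟨m, hm⟩ := AddSubgroup.mem_zmultiples_iff.1 hP
  obtain ⟨m', hm'⟩ := AddSubgroup.mem_zmultiples_iff.1 hQ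
  have hl1 : ¬ (l : ℤ) ∣ 1 := by
    intro hd
    have := Int.le_of_dvd one_pos hd
    have := hl.two_le
    omega
  have hm0 : m ≠ 0 := by
    rintro rfl
    rw [zero_smul] at hm
    have := h.ind 1 0 (by rw [← hm, smul_zero, zero_smul, add_zero])
    exact hl1 this.1
  have hg : Int.gcd m m' ≠ 0 := by
    intro h0
    exact hm0 (Int.gcd_eq_zero_iff.1 h0).1
  obtain ⟨n, n', d, hcop, h1, h2⟩ : ∃ n n' d : ℤ, IsCoprime n n' ∧ m = n * d ∧ m' = n' * d := by
    have hpos : 0 < Int.gcd m m' := Nat.pos_of_ne_zero hg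
    obtain ⟨n, n', h1, h2, h3⟩ := Int.exists_gcd_one hpos
    exact ⟨n, n', _, Int.isCoprime_iff_gcd_eq_one.2 h1, h2, h3⟩
  have e1 : n' • P + (-n) • Q = 0 := by
    rw [← hm, ← hm', smul_smul, smul_smul, ← add_smul]
    have : n' * m + -n * m' = 0 := by
      rw [h1, h2]
      ring
    rw [this, zero_smul]
  obtain ⟨d1, d2⟩ := h.ind _ _ e1
  rw [dvd_neg] at d2
  obtain ⟨u, w, huw⟩ := hcop
  apply hl1
  rw [← huw]
  exact dvd_add (Dvd.dvd.mul_left d2 u) (Dvd.dvd.mul_left d1 w)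

/-- the uniqueness of the kernel -/
theorem ker_le {f g : V →+ W} {h : W →+ V} {N : ℕ} (hN : 0 < N) (hf : Function.Surjective f)
    (hh : ∀ x, h (f x) = (N : ℤ) • x)
    (hB : ∀ l : ℕ, l.Prime → ∀ r : ℕ, ∃ P Q : V, Bas (l ^ r) P Q)
    (hθ : ∀ l : ℕ, l.Prime → ∀ s : ℕ, ∃ a : ℤ, ∀ z : V, ((l : ℤ) ^ s) • z = 0 → h (g z) = a • z)
    {y' : V} (hg : ∀ x, g x = 0 → x ∈ AddSubgroup.zmultiples y')
    {x : V} (hx : g x = 0) (hNx : (N : ℤ) • x = 0) : f x = 0 := by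
  have hfh : ∀ w, f (h w) = (N : ℤ) • w := by
    intro w
    obtain ⟨x, rfl⟩ := hf w
    rw [hh, map_zsmul]
  -- the primary parts
  have key : ∀ l : ℕ, l.Prime → ∀ a N' : ℕ, ¬ l ∣ N' → N = l ^ a * N' → f ((N' : ℤ) • x) = 0 := by
    intro l hl a N' hlN hNl
    have hl0 : (l : ℤ) ≠ 0 := by exact_mod_cast hl.ne_zero
    rcases Nat.eq_zero_or_pos a with ha | ha
    · subst ha
      rw [pow_zero, one_mul] at hNl
      rw [← hNl, hNx, map_zero]
    obtain ⟨P, Q, hPQ⟩ := hB l hl (a + a)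
    obtain ⟨xl, hxl⟩ : ∃ xl : V, xl = (N' : ℤ) • x := ⟨_, rfl⟩
    have hxl0 : ((l : ℤ) ^ a) • xl = 0 := by
      rw [hxl, smul_smul]
      have : (l : ℤ) ^ a * N' = N := by rw [hNl]; push_cast; rfl
      rw [this, hNx]
    have hgx : g xl = 0 := by rw [hxl, map_zsmul, hx, smul_zero]
    obtain ⟨z, hz, hzx⟩ := div_of hl hPQ hxl0
    obtain ⟨c, hc⟩ := hθ l hl (a + a)
    have hfc : f (c • z) = 0 := by
      rw [← hc z hz, hfh]
      have : (N : ℤ) • g z = (N' : ℤ) • g (((l : ℤ) ^ a) • z) := by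
        rw [hNl, map_zsmul, smul_smul]
        push_cast
        rw [mul_comm]
      rw [this, hzx, hgx, smul_zero]
    rw [← hxl]
    by_cases hcl : (l : ℤ) ^ (a + 1) ∣ c
    · exfalso
      obtain ⟨P₁, Q₁, hB1⟩ := hB l hl 1
      obtain ⟨P', Q', hB'⟩ := hB l hl (1 + a)
      have all : ∀ w : V, ((l : ℤ) ^ 1) • w = 0 → g w = 0 := by
        intro w hw
        obtain ⟨x1, hx1, hx1w⟩ := div_of hl hB' hw
        have h1 : h (g x1) = 0 := by
          have e2 : ((l : ℤ) ^ (a + a)) • x1 = 0 := by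
            have : (l : ℤ) ^ (a + a) = (l : ℤ) ^ (a - 1) * (l : ℤ) ^ (1 + a) := by
              rw [← pow_add]
              congr 1
              omega
            rw [this, mul_smul, hx1, smul_zero]
          rw [hc x1 e2]
          obtain ⟨c', rfl⟩ := hcl
          rw [mul_comm, mul_smul, add_comm a 1, hx1, smul_zero]
        obtain ⟨x', hx'⟩ := hf (g x1)
        have h2 : (N : ℤ) • g x1 = 0 := by
          rw [← hfh, h1, map_zero]
        have h3 : ((l : ℤ) ^ (1 + a)) • g x1 = 0 := by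
          rw [← map_zsmul, hx1, map_zero]
        have hcop : IsCoprime (N' : ℤ) ((l : ℤ)) :=
          Nat.isCoprime_iff_coprime.2 ((Nat.Prime.coprime_iff_not_dvd hl).2 hlN).symm
        obtain ⟨u, v, huv⟩ := hcop
        rw [← hx1w, map_zsmul]
        have : (l : ℤ) ^ a = u * N + v * (l : ℤ) ^ (1 + a) := by
          rw [hNl]
          push_cast
          rw [pow_add, pow_one]
          linear_combination (-(l : ℤ) ^ a) * huv
        rw [this, add_smul, mul_smul, mul_smul, h2, h3, smul_zero, smul_zero, add_zero]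
      have hB1' : Bas l P₁ Q₁ := by rw [pow_one] at hB1; exact hB1
      exact not_cyc hl hB1' (hg _ (all _ (by rw [pow_one]; exact hB1'.hP)))
        (hg _ (all _ (by rw [pow_one]; exact hB1'.hQ)))
    · -- the gcd of `c` and `l ^ (2a)`
      have hc0 : c ≠ 0 := by
        rintro rfl
        exact hcl (dvd_zero _)
      obtain ⟨v, c', hc', hcc⟩ : ∃ v : ℕ, ∃ c' : ℤ, ¬ (l : ℤ) ∣ c' ∧ c = (l : ℤ) ^ v * c' := by
        have hfin : FiniteMultiplicity (l : ℤ) c := by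
          rw [Int.finiteMultiplicity_iff]
          refine ⟨?_, hc0⟩
          rw [Int.natAbs_natCast]
          exact hl.ne_one
        obtain ⟨c', h1, h2⟩ := hfin.exists_eq_pow_mul_and_not_dvd
        exact ⟨_, c', h2, h1⟩
      have hva : v ≤ a := by
        by_contra hlt
        push Not at hlt
        apply hcl
        rw [hcc]
        exact Dvd.dvd.mul_right (pow_dvd_pow _ (by omega)) _
      have hcop : IsCoprime (c' : ℤ) ((l : ℤ) ^ (a + a)) := by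
        have hpp : _root_.Prime (l : ℤ) := Nat.prime_iff_prime_int.1 hl
        exact ((hpp.coprime_iff_not_dvd.2 hc').symm).pow_right
      obtain ⟨u, w, huw⟩ := hcop
      have e3 : ((l : ℤ) ^ v) • z = u • (c • z) := by
        have : (l : ℤ) ^ v = u * c + (l : ℤ) ^ v * w * (l : ℤ) ^ (a + a) := by
          rw [hcc]
          linear_combination (-(l : ℤ) ^ v) * huw
        conv_lhs => rw [this]
        rw [add_smul, mul_smul, mul_smul _ _ z, hz, smul_zero, add_zero]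
      have e4 : xl = ((l : ℤ) ^ (a - v)) • (((l : ℤ) ^ v) • z) := by
        rw [smul_smul, ← pow_add, Nat.sub_add_cancel hva, hzx]
      rw [e4, e3, map_zsmul, map_zsmul, hfc, smul_zero, smul_zero]
  -- the order of `f x`
  have hord : ∀ n : ℕ, f ((n : ℤ) • x) = 0 → addOrderOf (f x) ∣ n := by
    intro n hn
    rw [map_zsmul, natCast_zsmul] at hn
    exact addOrderOf_dvd_of_nsmul_eq_zero hn
  have h1 : addOrderOf (f x) = 1 := by
    by_contra hne
    obtain ⟨l, hl, hdvd⟩ := Nat.exists_prime_and_dvd hne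
    obtain ⟨a, N', hN', hNl⟩ := Nat.exists_eq_pow_mul_and_not_dvd hN.ne' l hl.ne_one
    exact hN' (hdvd.trans (hord N' (key l hl a N' hN' hNl)))
  exact AddMonoid.addOrderOf_eq_one_iff.1 h1

end

section
variable {V W G GM : Type*} [AddCommGroup V] [AddCommGroup W] [Group G] [Group GM]

theorem pow_act {aV : G → V →+ V} (mulV : ∀ σ τ x, aV (σ * τ) x = aV σ (aV τ x))
    (oneV : ∀ x, aV 1 x = x) {τ : G} {P Q : V} (h1 : aV τ P = P) (h2 : aV τ Q = Q + P) (n : ℕ) :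
    aV (τ ^ n) P = P ∧ aV (τ ^ n) Q = Q + (n : ℤ) • P := by
  induction n with
  | zero =>
    rw [pow_zero, oneV, oneV, Nat.cast_zero, zero_smul, add_zero]
    exact ⟨rfl, rfl⟩
  | succ n ih =>
    rw [pow_succ, mulV, mulV, h1, h2, ih.1, map_add, ih.2, ih.1]
    refine ⟨rfl, ?_⟩
    push_cast
    module

/-- **the kernel is stable** -/
theorem stable_of (ι : GM →* G) {aV : G → V →+ V} {aW : GM → W →+ W}
    (mulV : ∀ σ τ x, aV (σ * τ) x = aV σ (aV τ x)) (oneV : ∀ x, aV 1 x = x)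
    (mulW : ∀ σ τ x, aW (σ * τ) x = aW σ (aW τ x)) (oneW : ∀ x, aW 1 x = x)
    (hSL : ∀ l : ℕ, l.Prime → ∀ r : ℕ, ∃ P Q : V, Bas (l ^ r) P Q ∧
      (∃ τ : G, aV τ P = P ∧ aV τ Q = Q + P) ∧ ∃ τ : G, aV τ P = P + Q ∧ aV τ Q = Q)
    {D₂ : ℕ} (hD₂ : 0 < D₂) (h2 : ∀ τ : G, ∃ σ : GM, ι σ = τ ^ D₂) (H : Subgroup GM)
    {D₁ : ℕ} (hD₁ : 0 < D₁) (h1 : ∀ σ : GM, σ ^ D₁ ∈ H)
    {f : V →+ W} (hf : Function.Surjective f) (hfe : ∀ σ ∈ H, ∀ x, f (aV (ι σ) x) = aW σ (f x))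
    {y : V} (hy : ∀ x, f x = 0 ↔ x ∈ AddSubgroup.zmultiples y) (hfin : IsOfFinAddOrder y)
    (σ : GM) : aV (ι σ) y ∈ AddSubgroup.zmultiples y := by
  obtain ⟨N, hN⟩ : ∃ N, N = addOrderOf y := ⟨_, rfl⟩
  have hNpos : 0 < N := by
    rw [hN]
    exact hfin.addOrderOf_pos
  have hNy : (N : ℤ) • y = 0 := by
    rw [hN, natCast_zsmul, addOrderOf_nsmul_eq_zero]
  have hNz : ∀ x, f x = 0 → (N : ℤ) • x = 0 := by
    intro x hx
    obtain ⟨m, rfl⟩ := AddSubgroup.mem_zmultiples_iff.1 ((hy x).1 hx)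
    rw [smul_comm, hNy, smul_zero]
  -- the dual homomorphism
  obtain ⟨h, hh⟩ : ∃ h : W →+ V, ∀ x, h (f x) = (N : ℤ) • x := by
    choose s hs using hf
    refine ⟨AddMonoidHom.mk' (fun w => (N : ℤ) • s w) ?_, ?_⟩
    · intro a b
      have : f (s (a + b) - (s a + s b)) = 0 := by
        rw [map_sub, map_add, hs, hs, hs, sub_self]
      have h3 := hNz _ this
      rw [smul_sub, sub_eq_zero] at h3
      rw [h3, smul_add]
    · intro x
      have : f (s (f x) - x) = 0 := by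
        rw [map_sub, hs, sub_self]
      have h3 := hNz _ this
      rw [smul_sub, sub_eq_zero] at h3
      exact h3
  -- the conjugate
  obtain ⟨g, hg⟩ : ∃ g : V →+ W, ∀ x, g x = aW σ (f (aV (ι σ⁻¹) x)) :=
    ⟨(aW σ).comp (f.comp (aV (ι σ⁻¹))), fun x => rfl⟩
  have inv1 : ∀ x, aV (ι σ⁻¹) (aV (ι σ) x) = x := by
    intro x
    rw [← mulV, ← map_mul, inv_mul_cancel, map_one, oneV]
  have inv2 : ∀ x, aV (ι σ) (aV (ι σ⁻¹) x) = x := by
    intro x
    rw [← mulV, ← map_mul, mul_inv_cancel, map_one, oneV]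
  have invW : ∀ x, aW σ⁻¹ (aW σ x) = x := by
    intro x
    rw [← mulW, inv_mul_cancel, oneW]
  -- the commutation
  have comm : ∀ (τ : G) (x : V), h (g (aV (τ ^ (D₂ * D₁)) x)) = aV (τ ^ (D₂ * D₁)) (h (g x)) := by
    intro τ x
    obtain ⟨ρ, hρ⟩ := h2 τ
    have e1 : τ ^ (D₂ * D₁) = ι (ρ ^ D₁) := by rw [pow_mul, ← hρ, map_pow]
    have e2 : g (aV (ι (ρ ^ D₁)) x) = aW (ρ ^ D₁) (g x) := by
      rw [hg, hg]
      have e3 : aV (ι σ⁻¹) (aV (ι (ρ ^ D₁)) x) = aV (ι ((σ⁻¹ * ρ * σ) ^ D₁)) (aV (ι σ⁻¹) x) := by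
        rw [← mulV, ← mulV, ← map_mul, ← map_mul]
        congr 3
        have : (σ⁻¹ * ρ * σ) ^ D₁ = σ⁻¹ * ρ ^ D₁ * σ := by
          have := conj_pow (a := σ⁻¹) (b := ρ) (i := D₁)
          rw [inv_inv] at this
          exact this
        rw [this]
        group
      rw [e3, hfe _ (h1 _), ← mulW, ← mulW]
      congr 1
      have : (σ⁻¹ * ρ * σ) ^ D₁ = σ⁻¹ * ρ ^ D₁ * σ := by
        have := conj_pow (a := σ⁻¹) (b := ρ) (i := D₁)
        rw [inv_inv] at this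
        exact this
      rw [this]
      congr 1
      group
    have e4 : ∀ w, h (aW (ρ ^ D₁) w) = aV (ι (ρ ^ D₁)) (h w) := by
      intro w
      obtain ⟨x, rfl⟩ := hf w
      rw [← hfe _ (h1 _), hh, hh, map_zsmul]
    rw [e1, e2, e4]
  have hθ : ∀ l : ℕ, l.Prime → ∀ s : ℕ,
      ∃ a : ℤ, ∀ z : V, ((l : ℤ) ^ s) • z = 0 → h (g z) = a • z := by
    intro l hl s
    obtain ⟨v, D', hD', hDv⟩ := Nat.exists_eq_pow_mul_and_not_dvd (Nat.mul_pos hD₂ hD₁).ne' l
      hl.ne_one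
    obtain ⟨P, Q, hB, ⟨τ₁, t1, t2⟩, τ₂, t3, t4⟩ := hSL l hl (s + v)
    obtain ⟨p1, p2⟩ := pow_act mulV oneV t1 t2 (D₂ * D₁)
    obtain ⟨p3, p4⟩ := pow_act mulV oneV t4 t3 (D₂ * D₁)
    exact scalar hl hDv hD' hB (h.comp g) (aV (τ₁ ^ (D₂ * D₁))) (aV (τ₂ ^ (D₂ * D₁))) p1 p2 p4 p3
      (fun x => comm τ₁ x) (fun x => comm τ₂ x)
  have hgy : g (aV (ι σ) y) = 0 := by
    rw [hg, inv1, (hy y).2 (AddSubgroup.mem_zmultiples y), map_zero]
  refine (hy _).1 (ker_le hNpos hf hh (fun l hl r => ?_) hθ (y' := aV (ι σ) y) ?_ hgy ?_)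
  · obtain ⟨P, Q, hB, -⟩ := hSL l hl r
    exact ⟨P, Q, hB⟩
  · intro x hx
    rw [hg] at hx
    have h3 : f (aV (ι σ⁻¹) x) = 0 := by
      rw [← invW (f _), hx, map_zero]
    obtain ⟨m, hm⟩ := AddSubgroup.mem_zmultiples_iff.1 ((hy _).1 h3)
    refine AddSubgroup.mem_zmultiples_iff.2 ⟨m, ?_⟩
    rw [← map_zsmul, hm, inv2]
  · rw [← map_zsmul, hNy, map_zero]

end

end Pool.Agent.N495.GO
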