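import Pool.Agent.N495.GO.Fam2

/-!
Many conjugates of a cyclic subgroup under the stabilizer of another one (helper495).
-/

set_option autoImplicit false

namespace Pool.Agent.N495.GO

open Pool.Agent.Q19.SU.Gen

section
variable {V G : Type*} [AddCommGroup V]

/-- elements acting trivially outside `q` -/
theorem slb_of {q m : ℕ} (hqm : Nat.Coprime q m) (hq : 0 < q) (hm : 0 < m) {P₀ Q₀ : V}
    {aV : G → V →+ V} {S : Set G} (h : SLB (q * m) P₀ Q₀ aV S) :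
    SLB q ((m : ℤ) • P₀) ((m : ℤ) • Q₀) aV {σ | ∀ x, (m : ℤ) • x = 0 → aV σ x = x} := by
  have hq0 : (q : ℤ) ≠ 0 := by exact_mod_cast hq.ne'
  have hm0 : (m : ℤ) ≠ 0 := by exact_mod_cast hm.ne'
  have hP := h.bas.hP
  have hQ := h.bas.hQ
  push_cast at hP hQ
  have hcop : IsCoprime (q : ℤ) (m : ℤ) := Nat.isCoprime_iff_coprime.2 hqm
  have bas : Bas q ((m : ℤ) • P₀) ((m : ℤ) • Q₀) := by
    refine ⟨by rw [smul_smul, hP], by rw [smul_smul, hQ], ?_, ?_⟩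
    · intro R hR
      obtain ⟨a, b, hab⟩ := h.bas.span R (by
        push_cast
        rw [mul_comm, mul_smul, hR, smul_zero])
      have h1 : (q * a : ℤ) • P₀ + (q * b : ℤ) • Q₀ = 0 := by
        rw [mul_smul, mul_smul, ← smul_add, ← hab, hR]
      obtain ⟨h2, h3⟩ := h.bas.ind _ _ h1
      push_cast at h2 h3
      obtain ⟨a', ha'⟩ := (mul_dvd_mul_iff_left hq0).1 h2
      obtain ⟨b', hb'⟩ := (mul_dvd_mul_iff_left hq0).1 h3
      refine ⟨a', b', ?_⟩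
      rw [hab, ha', hb']
      module
    · intro a b hab
      have h1 : (a * m : ℤ) • P₀ + (b * m : ℤ) • Q₀ = 0 := by
        rw [mul_smul, mul_smul, hab]
      obtain ⟨h2, h3⟩ := h.bas.ind _ _ h1
      push_cast at h2 h3
      exact ⟨(mul_dvd_mul_iff_right hm0).1 h2, (mul_dvd_mul_iff_right hm0).1 h3⟩
  refine ⟨bas, ?_⟩
  intro x y z w hxw
  obtain ⟨u, v, huv⟩ := hcop
  -- `e = v m` is `1` modulo `q` and `0` modulo `m`
  obtain ⟨lam, hlam⟩ := hxw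
  obtain ⟨σ, hσ, s1, s2⟩ := h.all (1 + v * m * (x - 1)) (v * m * y) (v * m * z)
    (1 + v * m * (w - 1)) (by
      push_cast
      refine ⟨v * lam - u * v * ((x - 1) * (w - 1) - y * z), ?_⟩
      have : v * (m : ℤ) = 1 - u * q := by linear_combination huv
      linear_combination (v * m) * hlam + (v * m * ((x - 1) * (w - 1) - y * z)) * huv)
  refine ⟨σ, ?_, ?_, ?_⟩
  · intro t ht
    obtain ⟨a, b, hab⟩ := h.bas.span t (by
      push_cast
      rw [mul_smul, ht, smul_zero])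
    have h1 : (m * a : ℤ) • P₀ + (m * b : ℤ) • Q₀ = 0 := by
      rw [mul_smul, mul_smul, ← smul_add, ← hab, ht]
    obtain ⟨h2, h3⟩ := h.bas.ind _ _ h1
    push_cast at h2 h3
    rw [mul_comm (q : ℤ) (m : ℤ)] at h2 h3
    obtain ⟨a', ha'⟩ := (mul_dvd_mul_iff_left hm0).1 h2
    obtain ⟨b', hb'⟩ := (mul_dvd_mul_iff_left hm0).1 h3
    rw [hab, map_add, map_zsmul, map_zsmul, s1, s2, ha', hb']
    have : (q * a' : ℤ) • ((1 + v * m * (x - 1)) • P₀ + (v * m * z) • Q₀) +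
        (q * b' : ℤ) • ((v * m * y) • P₀ + (1 + v * m * (w - 1)) • Q₀) =
        ((q * a' : ℤ) • P₀ + (q * b' : ℤ) • Q₀) +
        ((a' * v * (x - 1) + b' * v * y) • ((q * m : ℤ) • P₀) +
          (a' * v * z + b' * v * (w - 1)) • ((q * m : ℤ) • Q₀)) := by module
    rw [this, hP, hQ, smul_zero, smul_zero, add_zero, add_zero]
  · rw [map_zsmul, s1]
    have : (m : ℤ) • ((1 + v * m * (x - 1)) • P₀ + (v * m * z) • Q₀) =
        (x • ((m : ℤ) • P₀) + z • ((m : ℤ) • Q₀)) +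
        ((v * m - 1) * (x - 1)) • ((m : ℤ) • P₀) + ((v * m - 1) * z) • ((m : ℤ) • Q₀) := by
      module
    rw [this]
    have e : v * (m : ℤ) - 1 = - u * q := by linear_combination huv
    have f1 : ((v * m - 1) * (x - 1)) • ((m : ℤ) • P₀) = 0 := by
      rw [e]
      have : (-u * q * (x - 1)) • ((m : ℤ) • P₀) = (-u * (x - 1)) • ((q * m : ℤ) • P₀) := by module
      rw [this, hP, smul_zero]
    have f2 : ((v * m - 1) * z) • ((m : ℤ) • Q₀) = 0 := by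
      rw [e]
      have : (-u * q * z) • ((m : ℤ) • Q₀) = (-u * z) • ((q * m : ℤ) • Q₀) := by module
      rw [this, hQ, smul_zero]
    rw [f1, f2, add_zero, add_zero]
  · rw [map_zsmul, s2]
    have : (m : ℤ) • ((v * m * y) • P₀ + (1 + v * m * (w - 1)) • Q₀) =
        (y • ((m : ℤ) • P₀) + w • ((m : ℤ) • Q₀)) +
        ((v * m - 1) * y) • ((m : ℤ) • P₀) + ((v * m - 1) * (w - 1)) • ((m : ℤ) • Q₀) := by
      module
    rw [this]
    have e : v * (m : ℤ) - 1 = - u * q := by linear_combination huv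
    have f1 : ((v * m - 1) * y) • ((m : ℤ) • P₀) = 0 := by
      rw [e]
      have : (-u * q * y) • ((m : ℤ) • P₀) = (-u * y) • ((q * m : ℤ) • P₀) := by module
      rw [this, hP, smul_zero]
    have f2 : ((v * m - 1) * (w - 1)) • ((m : ℤ) • Q₀) = 0 := by
      rw [e]
      have : (-u * q * (w - 1)) • ((m : ℤ) • Q₀) = (-u * (w - 1)) • ((q * m : ℤ) • Q₀) := by module
      rw [this, hQ, smul_zero]
    rw [f1, f2, add_zero, add_zero]

/-- the relative index of a subgroup in a cyclic group -/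
theorem relIndex_dvd {H : AddSubgroup V} {y : V} {n : ℕ} (h : (n : ℤ) • y ∈ H) :
    H.relIndex (AddSubgroup.zmultiples y) ∣ n := by
  have hy : y ∈ AddSubgroup.zmultiples y := AddSubgroup.mem_zmultiples y
  obtain ⟨g, hg⟩ : ∃ g : (AddSubgroup.zmultiples y) ⧸
      (H.addSubgroupOf (AddSubgroup.zmultiples y)), g =
      ((⟨y, hy⟩ : AddSubgroup.zmultiples y) : (AddSubgroup.zmultiples y) ⧸
      (H.addSubgroupOf (AddSubgroup.zmultiples y))) := ⟨_, rfl⟩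
  have hgen : ∀ x, x ∈ AddSubgroup.zmultiples g := by
    intro x
    obtain ⟨⟨z, hz⟩, rfl⟩ := QuotientAddGroup.mk_surjective x
    obtain ⟨m, hm⟩ := AddSubgroup.mem_zmultiples_iff.1 hz
    refine AddSubgroup.mem_zmultiples_iff.2 ⟨m, ?_⟩
    rw [hg, ← QuotientAddGroup.mk_zsmul]
    congr 1
    exact Subtype.ext hm
  have h1 : addOrderOf g = H.relIndex (AddSubgroup.zmultiples y) :=
    addOrderOf_eq_card_of_forall_mem_zmultiples hgen
  rw [← h1]
  apply addOrderOf_dvd_of_nsmul_eq_zero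
  rw [← natCast_zsmul, hg, ← QuotientAddGroup.mk_zsmul, QuotientAddGroup.eq_zero_iff]
  rw [AddSubgroup.mem_addSubgroupOf]
  exact h

/-- **many conjugates** -/
theorem family_all {N₁ N₂ : ℕ} (h₁ : 0 < N₁) (h₂ : 0 < N₂) {P₀ Q₀ : V} {aV : G → V →+ V}
    {S : Set G} (h : SLB (N₁ * N₂) P₀ Q₀ aV S) {y₁ y₂ : V} (hy₁ : addOrderOf y₁ = N₁)
    (hy₂ : addOrderOf y₂ = N₂) {l f : ℕ} (hl : l.Prime)
    (hd : l ^ f ∣ (AddSubgroup.zmultiples y₁).relIndex (AddSubgroup.zmultiples y₂)) :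
    ∃ (n : ℕ) (σ : Fin n → G), l ^ f ≤ 16 * n ∧
      (∀ i, aV (σ i) y₁ ∈ AddSubgroup.zmultiples y₁) ∧
      ∀ i j, aV (σ i) y₂ ∈ AddSubgroup.zmultiples (aV (σ j) y₂) → i = j := by
  obtain ⟨n₁, M₁, hM₁, hN₁⟩ := Nat.exists_eq_pow_mul_and_not_dvd h₁.ne' l hl.ne_one
  obtain ⟨n₂, M₂, hM₂, hN₂⟩ := Nat.exists_eq_pow_mul_and_not_dvd h₂.ne' l hl.ne_one
  have hM₁0 : M₁ ≠ 0 := by
    rintro rfl
    exact hM₁ (dvd_zero _)
  have hM₂0 : M₂ ≠ 0 := by
    rintro rfl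
    exact hM₂ (dvd_zero _)
  have hl0 : ∀ n : ℕ, 0 < l ^ n := fun n => pow_pos hl.pos n
  have hNN : N₁ * N₂ = l ^ (n₁ + n₂) * (M₁ * M₂) := by
    rw [hN₁, hN₂, pow_add]
    ring
  have hcop : Nat.Coprime (l ^ (n₁ + n₂)) (M₁ * M₂) :=
    Nat.Coprime.pow_left _ ((Nat.Prime.coprime_iff_not_dvd hl).2 fun hcon => by
      rcases (hl.dvd_mul).1 hcon with h3 | h3
      · exact hM₁ h3
      · exact hM₂ h3)
  rw [hNN] at h
  have hS := slb_of hcop (hl0 _) (Nat.mul_pos (Nat.pos_of_ne_zero hM₁0) (Nat.pos_of_ne_zero hM₂0)) h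
  have o₁ : addOrderOf (M₁ • y₁) = l ^ n₁ := by
    rw [addOrderOf_nsmul' y₁ hM₁0, hy₁, hN₁, Nat.gcd_mul_left_left,
      Nat.mul_div_cancel _ (Nat.pos_of_ne_zero hM₁0)]
  have o₂ : addOrderOf (M₂ • y₂) = l ^ n₂ := by
    rw [addOrderOf_nsmul' y₂ hM₂0, hy₂, hN₂, Nat.gcd_mul_left_left,
      Nat.mul_div_cancel _ (Nat.pos_of_ne_zero hM₂0)]
  obtain ⟨e, n, σ, k1, k2, k3, k4⟩ := family hl (Nat.le_add_right n₁ n₂) (Nat.le_add_left n₂ n₁)
    hS o₁ o₂
  refine ⟨n, σ, ?_, ?_, ?_⟩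
  · refine le_trans ?_ k2
    have h3 : (((l ^ e * M₂ : ℕ)) : ℤ) • y₂ ∈ AddSubgroup.zmultiples y₁ := by
      have h4 : (((l ^ e * M₂ : ℕ)) : ℤ) • y₂ = ((l : ℤ) ^ e) • (M₂ • y₂) := by
        push_cast
        rw [mul_smul, natCast_zsmul]
      rw [h4]
      obtain ⟨c, hc⟩ := AddSubgroup.mem_zmultiples_iff.1 k1
      rw [← hc, ← natCast_zsmul, smul_smul]
      exact AddSubgroup.zsmul_mem_zmultiples _ _
    have h4 := hd.trans (relIndex_dvd h3)
    have h5 : Nat.Coprime (l ^ f) M₂ :=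
      Nat.Coprime.pow_left _ ((Nat.Prime.coprime_iff_not_dvd hl).2 hM₂)
    exact Nat.le_of_dvd (hl0 e) (h5.dvd_of_dvd_mul_right h4)
  · intro i
    obtain ⟨k5, k6⟩ := k3 i
    have hc : IsCoprime (M₁ : ℤ) ((l : ℤ) ^ n₁) := by
      have := Nat.isCoprime_iff_coprime.2
        (Nat.Coprime.pow_right n₁ ((Nat.Prime.coprime_iff_not_dvd hl).2 hM₁).symm)
      push_cast at this
      exact this
    obtain ⟨u, v, huv⟩ := hc
    have h3 : y₁ = u • (M₁ • y₁) + v • (((l : ℤ) ^ n₁) • y₁) := by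
      have : u • (M₁ • y₁) + v • (((l : ℤ) ^ n₁) • y₁) = (u * M₁ + v * (l : ℤ) ^ n₁) • y₁ := by
        module
      rw [this, huv, one_smul]
    have h4 : aV (σ i) (((l : ℤ) ^ n₁) • y₁) = ((l : ℤ) ^ n₁) • y₁ := by
      apply k5
      have : (((M₁ * M₂ : ℕ)) : ℤ) • ((l : ℤ) ^ n₁) • y₁ = (M₂ : ℤ) • ((N₁ : ℤ) • y₁) := by
        rw [hN₁]
        push_cast
        module
      rw [this, natCast_zsmul _ N₁, ← hy₁, addOrderOf_nsmul_eq_zero, smul_zero]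
    obtain ⟨c, hc⟩ := AddSubgroup.mem_zmultiples_iff.1 k6
    have h5 : aV (σ i) y₁ = (u * c * M₁ + v * (l : ℤ) ^ n₁) • y₁ := by
      conv_lhs => rw [h3]
      rw [map_add, map_zsmul, map_zsmul, h4, ← hc]
      module
    rw [h5]
    exact AddSubgroup.zsmul_mem_zmultiples _ _
  · intro i j hij
    apply k4
    obtain ⟨c, hc⟩ := AddSubgroup.mem_zmultiples_iff.1 hij
    refine AddSubgroup.mem_zmultiples_iff.2 ⟨c, ?_⟩
    rw [map_nsmul, map_nsmul, ← hc]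
    module

end

end Pool.Agent.N495.GO
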