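import Pool.Agent.N495.GO.Crt

/-!
Many conjugates of a cyclic subgroup under the stabilizer of another one, all primes together (helper495).
-/

set_option autoImplicit false

namespace Pool.Agent.N495.GO

open Pool.Agent.Q19.SU.Gen

section
variable {V G : Type*} [AddCommGroup V] [Group G]

omit [Group G] in
/-- elements acting trivially outside `q`, in a given set -/
theorem slb_of' {q m : ℕ} (hqm : Nat.Coprime q m) (hq : 0 < q) (hm : 0 < m) {P₀ Q₀ : V}
    {aV : G → V →+ V} {S : Set G} (h : SLB (q * m) P₀ Q₀ aV S) :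
    SLB q ((m : ℤ) • P₀) ((m : ℤ) • Q₀) aV {σ | σ ∈ S ∧ ∀ x, (m : ℤ) • x = 0 → aV σ x = x} := by
  have h' : SLB (q * m) P₀ Q₀ (fun σ : S => aV σ.1) Set.univ := by
    refine ⟨h.bas, fun x y z w hd => ?_⟩
    obtain ⟨σ, hσ, h1, h2⟩ := h.all x y z w hd
    exact ⟨⟨σ, hσ⟩, Set.mem_univ _, h1, h2⟩
  have h2 := slb_of hqm hq hm h'
  refine ⟨h2.bas, fun x y z w hd => ?_⟩
  obtain ⟨σ, hσ, h3, h4⟩ := h2.all x y z w hd
  exact ⟨σ.1, ⟨σ.2, hσ⟩, h3, h4⟩

/-- **many conjugates** -/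
theorem fam_prod {aV : G → V →+ V} (mulV : ∀ σ τ x, aV (σ * τ) x = aV σ (aV τ x))
    (oneV : ∀ x, aV 1 x = x) (N : ℕ) : 0 < N → ∀ (S : Set G), (∀ σ ∈ S, ∀ τ ∈ S, σ * τ ∈ S) →
    1 ∈ S → ∀ (P Q : V), SLB N P Q aV S → ∀ y₁ y₂ : V, (N : ℤ) • y₁ = 0 → (N : ℤ) • y₂ = 0 →
    ∃ (ι : Type) (_ : Fintype ι) (σ : ι → G),
      (AddSubgroup.zmultiples y₁).relIndex (AddSubgroup.zmultiples y₂) ≤
        16 ^ ((AddSubgroup.zmultiples y₁).relIndex
          (AddSubgroup.zmultiples y₂)).primeFactors.card * Fintype.card ι ∧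
      (∀ i, σ i ∈ S ∧ aV (σ i) y₁ ∈ AddSubgroup.zmultiples y₁) ∧
      ∀ i j, aV (σ i) y₂ ∈ AddSubgroup.zmultiples (aV (σ j) y₂) → i = j := by
  have triv : ∀ (S : Set G), 1 ∈ S → ∀ y₁ y₂ : V,
      (AddSubgroup.zmultiples y₁).relIndex (AddSubgroup.zmultiples y₂) = 1 →
      ∃ (ι : Type) (_ : Fintype ι) (σ : ι → G),
      (AddSubgroup.zmultiples y₁).relIndex (AddSubgroup.zmultiples y₂) ≤
        16 ^ ((AddSubgroup.zmultiples y₁).relIndex
          (AddSubgroup.zmultiples y₂)).primeFactors.card * Fintype.card ι ∧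
      (∀ i, σ i ∈ S ∧ aV (σ i) y₁ ∈ AddSubgroup.zmultiples y₁) ∧
      ∀ i j, aV (σ i) y₂ ∈ AddSubgroup.zmultiples (aV (σ j) y₂) → i = j := by
    intro S h1 y₁ y₂ hD
    refine ⟨Unit, inferInstance, fun _ => 1, ?_, ?_, fun i j _ => rfl⟩
    · rw [hD]
      simp
    · intro i
      refine ⟨h1, ?_⟩
      rw [oneV]
      exact AddSubgroup.mem_zmultiples y₁
  induction N using Nat.recOnPosPrimePosCoprime with
  | prime_pow l r hl hr =>
    intro _ S hS h1 P Q h y₁ y₂ hy₁ hy₂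
    have t₁ : (l ^ r) • y₁ = 0 := by rw [← natCast_zsmul]; exact hy₁
    have t₂ : (l ^ r) • y₂ = 0 := by rw [← natCast_zsmul]; exact hy₂
    obtain ⟨n₁, hn₁, o₁⟩ := (Nat.dvd_prime_pow hl).1 (addOrderOf_dvd_of_nsmul_eq_zero t₁)
    obtain ⟨n₂, hn₂, o₂⟩ := (Nat.dvd_prime_pow hl).1 (addOrderOf_dvd_of_nsmul_eq_zero t₂)
    obtain ⟨e, n, σ, k1, k2, k3, k4⟩ := family hl hn₁ hn₂ h o₁ o₂
    have hdvd := relIndex_dvd (H := AddSubgroup.zmultiples y₁) (y := y₂) (n := l ^ e)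
      (by push_cast; exact k1)
    by_cases hD : (AddSubgroup.zmultiples y₁).relIndex (AddSubgroup.zmultiples y₂) = 1
    · exact triv S h1 y₁ y₂ hD
    · obtain ⟨d, hd, hDd⟩ := (Nat.dvd_prime_pow hl).1 hdvd
      have hd0 : d ≠ 0 := by
        rintro rfl
        exact hD (by rw [hDd, pow_zero])
      refine ⟨Fin n, inferInstance, σ, ?_, k3, k4⟩
      rw [hDd, Nat.primeFactors_prime_pow hd0 hl, Finset.card_singleton, pow_one, Fintype.card_fin]
      exact (Nat.pow_le_pow_right hl.pos hd).trans k2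
  | zero =>
    intro h
    exact absurd h (lt_irrefl _)
  | one =>
    intro _ S hS h1 P Q h y₁ y₂ hy₁ hy₂
    apply triv S h1
    apply Nat.dvd_one.1
    apply relIndex_dvd
    rw [hy₂]
    exact AddSubgroup.zero_mem _
  | coprime a b ha hb hab iha ihb =>
    intro hpos S hS h1 P Q h y₁ y₂ hy₁ hy₂
    have ha0 : 0 < a := by omega
    have hb0 : 0 < b := by omega
    have hSa := slb_of' hab ha0 hb0 h
    have hSb := slb_of' hab.symm hb0 ha0 (by rw [mul_comm b a]; exact h)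
    obtain ⟨u, v, huv⟩ := (Nat.isCoprime_iff_coprime.2 hab : IsCoprime (a : ℤ) (b : ℤ))
    -- the components `(v b) y` and `(u a) y`
    push_cast at hy₁ hy₂
    have comp : ∀ y : V, ((a : ℤ) * b) • y = 0 → (a : ℤ) • ((v * b) • y) = 0 ∧
        (b : ℤ) • ((u * a) • y) = 0 ∧ y = (v * b) • y + (u * a) • y := by
      intro y hy
      refine ⟨?_, ?_, ?_⟩
      · have : (a : ℤ) • ((v * b) • y) = v • (((a : ℤ) * b) • y) := by module
        rw [this, hy, smul_zero]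
      · have : (b : ℤ) • ((u * a) • y) = u • (((a : ℤ) * b) • y) := by module
        rw [this, hy, smul_zero]
      · rw [← add_smul]
        have : v * (b : ℤ) + u * a = 1 := by linear_combination huv
        rw [this, one_smul]
    obtain ⟨a1, b1, c1⟩ := comp y₁ hy₁
    obtain ⟨a2, b2, c2⟩ := comp y₂ hy₂
    obtain ⟨y₁a, hy₁a⟩ : ∃ z, z = (v * b) • y₁ := ⟨_, rfl⟩
    obtain ⟨y₁b, hy₁b⟩ : ∃ z, z = (u * a) • y₁ := ⟨_, rfl⟩
    obtain ⟨y₂a, hy₂a⟩ : ∃ z, z = (v * b) • y₂ := ⟨_, rfl⟩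
    obtain ⟨y₂b, hy₂b⟩ : ∃ z, z = (u * a) • y₂ := ⟨_, rfl⟩
    rw [← hy₁a] at a1 c1
    rw [← hy₁b] at b1 c1
    rw [← hy₂a] at a2 c2
    rw [← hy₂b] at b2 c2
    obtain ⟨ιa, fa, σa, da, ma, ja⟩ := iha ha0 {σ | σ ∈ S ∧ ∀ x, (b : ℤ) • x = 0 → aV σ x = x}
      (fun σ hσ τ hτ => ⟨hS σ hσ.1 τ hτ.1, fun x hx => by rw [mulV, hτ.2 x hx, hσ.2 x hx]⟩)
      ⟨h1, fun x _ => oneV x⟩ _ _ hSa y₁a y₂a a1 a2
    obtain ⟨ιb, fb, σb, db, mb, jb⟩ := ihb hb0 {σ | σ ∈ S ∧ ∀ x, (a : ℤ) • x = 0 → aV σ x = x}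
      (fun σ hσ τ hτ => ⟨hS σ hσ.1 τ hτ.1, fun x hx => by rw [mulV, hτ.2 x hx, hσ.2 x hx]⟩)
      ⟨h1, fun x _ => oneV x⟩ _ _ hSb y₁b y₂b b1 b2
    obtain ⟨Da, hDa⟩ : ∃ D, D = (AddSubgroup.zmultiples y₁a).relIndex
      (AddSubgroup.zmultiples y₂a) := ⟨_, rfl⟩
    obtain ⟨Db, hDb⟩ : ∃ D, D = (AddSubgroup.zmultiples y₁b).relIndex
      (AddSubgroup.zmultiples y₂b) := ⟨_, rfl⟩
    obtain ⟨D, hD⟩ : ∃ D, D = (AddSubgroup.zmultiples y₁).relIndex
      (AddSubgroup.zmultiples y₂) := ⟨_, rfl⟩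
    rw [← hDa] at da
    rw [← hDb] at db
    rw [← hD]
    have m1a : y₁a ∈ AddSubgroup.zmultiples y₁ := by
      rw [hy₁a]; exact AddSubgroup.zsmul_mem_zmultiples _ _
    have m1b : y₁b ∈ AddSubgroup.zmultiples y₁ := by
      rw [hy₁b]; exact AddSubgroup.zsmul_mem_zmultiples _ _
    -- `D • y ∈ H`
    have smul_mem : ∀ (H : AddSubgroup V) (y : V),
        ((H.relIndex (AddSubgroup.zmultiples y) : ℕ) : ℤ) • y ∈ H := by
      intro H y
      have h3 : (H.addSubgroupOf (AddSubgroup.zmultiples y)).index •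
          (⟨y, AddSubgroup.mem_zmultiples y⟩ : AddSubgroup.zmultiples y) ∈
          H.addSubgroupOf (AddSubgroup.zmultiples y) :=
        AddSubgroup.nsmul_index_mem _ _
      rw [AddSubgroup.mem_addSubgroupOf] at h3
      rw [natCast_zsmul]
      exact h3
    have hDaa : Da ∣ a := by
      rw [hDa]
      apply relIndex_dvd
      rw [a2]
      exact AddSubgroup.zero_mem _
    have hDbb : Db ∣ b := by
      rw [hDb]
      apply relIndex_dvd
      rw [b2]
      exact AddSubgroup.zero_mem _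
    have hcop : Nat.Coprime Da Db := Nat.Coprime.coprime_dvd_left hDaa
      (Nat.Coprime.coprime_dvd_right hDbb hab)
    have hDD : D = Da * Db := by
      apply Nat.dvd_antisymm
      · rw [hD]
        apply relIndex_dvd
        have e1 : (((Da * Db : ℕ)) : ℤ) • y₂ = (Db : ℤ) • ((Da : ℤ) • y₂a) +
            (Da : ℤ) • ((Db : ℤ) • y₂b) := by
          conv_lhs => rw [c2]
          push_cast
          module
        rw [e1]
        refine AddSubgroup.add_mem _ (AddSubgroup.zsmul_mem _ ?_ _)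
          (AddSubgroup.zsmul_mem _ ?_ _)
        · have := smul_mem (AddSubgroup.zmultiples y₁a) y₂a
          rw [← hDa] at this
          exact (AddSubgroup.zmultiples_le.2 m1a) this
        · have := smul_mem (AddSubgroup.zmultiples y₁b) y₂b
          rw [← hDb] at this
          exact (AddSubgroup.zmultiples_le.2 m1b) this
      · have h3 := smul_mem (AddSubgroup.zmultiples y₁) y₂
        rw [← hD] at h3
        obtain ⟨c, hc⟩ := AddSubgroup.mem_zmultiples_iff.1 h3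
        refine hcop.mul_dvd_of_dvd_of_dvd ?_ ?_
        · rw [hDa]
          apply relIndex_dvd
          refine AddSubgroup.mem_zmultiples_iff.2 ⟨c, ?_⟩
          rw [hy₁a, hy₂a, smul_comm c, hc, smul_comm]
        · rw [hDb]
          apply relIndex_dvd
          refine AddSubgroup.mem_zmultiples_iff.2 ⟨c, ?_⟩
          rw [hy₁b, hy₂b, smul_comm c, hc, smul_comm]
    -- the action of the products on the components
    have acta : ∀ (i : ιa) (j : ιb) (x : V), (a : ℤ) • x = 0 →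
        aV (σa i * σb j) x = aV (σa i) x := by
      intro i j x hx
      rw [mulV, (mb j).1.2 x hx]
    have actb : ∀ (i : ιa) (j : ιb) (x : V), (b : ℤ) • x = 0 →
        aV (σa i * σb j) x = aV (σb j) x := by
      intro i j x hx
      rw [mulV, (ma i).1.2 _ (by rw [← map_zsmul, hx, map_zero])]
    refine ⟨ιa × ιb, inferInstance, fun p => σa p.1 * σb p.2, ?_, ?_, ?_⟩
    · rw [hDD, Nat.Coprime.primeFactors_mul hcop,
        Finset.card_union_of_disjoint hcop.disjoint_primeFactors, pow_add, Fintype.card_prod]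
      calc Da * Db ≤ (16 ^ Da.primeFactors.card * Fintype.card ιa) *
            (16 ^ Db.primeFactors.card * Fintype.card ιb) := Nat.mul_le_mul da db
        _ = _ := by ring
    · rintro ⟨i, j⟩
      refine ⟨hS _ (ma i).1.1 _ (mb j).1.1, ?_⟩
      show aV (σa i * σb j) y₁ ∈ _
      have : aV (σa i * σb j) y₁ = aV (σa i) y₁a + aV (σb j) y₁b := by
        conv_lhs => rw [c1]
        rw [map_add, acta i j _ a1, actb i j _ b1]
      rw [this]
      exact AddSubgroup.add_mem _ ((AddSubgroup.zmultiples_le.2 m1a) (ma i).2)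
        ((AddSubgroup.zmultiples_le.2 m1b) (mb j).2)
    · rintro ⟨i, j⟩ ⟨i', j'⟩ hij
      obtain ⟨c, hc⟩ := AddSubgroup.mem_zmultiples_iff.1 hij
      have hc' : c • aV (σa i' * σb j') y₂ = aV (σa i * σb j) y₂ := hc
      have k1 : i = i' := by
        apply ja
        refine AddSubgroup.mem_zmultiples_iff.2 ⟨c, ?_⟩
        rw [← acta i j _ a2, ← acta i' j' _ a2, hy₂a, map_zsmul, map_zsmul, smul_comm, hc']
      have k2 : j = j' := by
        apply jb
        refine AddSubgroup.mem_zmultiples_iff.2 ⟨c, ?_⟩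
        rw [← actb i j _ b2, ← actb i' j' _ b2, hy₂b, map_zsmul, map_zsmul, smul_comm, hc']
      rw [k1, k2]

end

end Pool.Agent.N495.GO
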