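import Pool.Agent.N495.GO.Pair
import Pool.Agent.N495.GO.Prod

/-!
Algebraic relations, over an extension, between the invariants of curves isogenous to a given one
(helper495).
-/

set_option autoImplicit false

namespace Pool.Agent.N495.GO

open WeierstrassCurve NumberField
open Pool.Agent.H901R3.MS Pool.Agent.W275.FM Pool.Agent.Y673.Loc Pool.Agent.Y673.FM
open Pool.Agent.Q19.SU Pool.Agent.N495.TS

open scoped Classical in
/-- the number of conjugates is at most the degree of a relation -/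
theorem count_le2 {k : Type} [Field k] [NumberField k] {K : Type} [Field K] [NumberField K]
    [Algebra k K] [FiniteDimensional k K] {A B A₁ B₁ A₂ B₂ : K}
    {e : AlgebraicClosure K ≃+* AlgebraicClosure k}
    {s : K →ₐ[k] AlgebraicClosure k} {A₀ B₀ : k} {u : AlgebraicClosure k}
    {ψ : EP A B ≃+ EP A₀ B₀} (hb : Base A B e s A₀ B₀ u ψ) (hL : LQ A₀ B₀)
    (hD₁ : 4 * A₁ ^ 3 + 27 * B₁ ^ 2 ≠ 0)
    (hD₂ : 4 * A₂ ^ 3 + 27 * B₂ ^ 2 ≠ 0) (f₂ : EP A B →+ EP A₂ B₂) (hf₂ : Function.Surjective f₂)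
    (hfe₂ : ∀ (σ : AlgebraicClosure K ≃ₐ[K] AlgebraicClosure K) (x : EP A B),
      f₂ (act A B σ x) = act A₂ B₂ σ (f₂ x))
    {y₁ y₂ : EP A B} (hy₂ : ∀ x, f₂ x = 0 ↔ x ∈ AddSubgroup.zmultiples y₂)
    (hfin₁ : IsOfFinAddOrder y₁) (hfin₂ : IsOfFinAddOrder y₂)
    (hA₁ : algebraMap K (AlgebraicClosure K) A₁ = algebraMap K _ A -
      5 * ts (algebraMap K _ A) (AddSubgroup.zmultiples y₁ : Set (EP A B)))
    (hB₁ : algebraMap K (AlgebraicClosure K) B₁ = algebraMap K _ B -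
      7 * ws (algebraMap K _ A) (algebraMap K _ B) (AddSubgroup.zmultiples y₁ : Set (EP A B)))
    {k' : IntermediateField k K} {F : Polynomial (Polynomial k')}
    (hF : F.map (Polynomial.aeval (jv A₁ B₁) : Polynomial k' →ₐ[k'] K).toRingHom ≠ 0)
    (hroot : (F.map (Polynomial.aeval (jv A₁ B₁) : Polynomial k' →ₐ[k'] K).toRingHom).eval
      (jv A₂ B₂) = 0) {ι : Type} [Fintype ι]
    (σ : ι → (AlgebraicClosure k ≃ₐ[k] AlgebraicClosure k))
    (h2 : ∀ i, act A₀ B₀ (σ i) (ψ y₁) ∈ AddSubgroup.zmultiples (ψ y₁))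
    (h3 : ∀ i j, act A₀ B₀ (σ i) (ψ y₂) ∈ AddSubgroup.zmultiples (act A₀ B₀ (σ j) (ψ y₂)) →
      i = j) : Fintype.card ι ≤ Module.finrank k k' * F.natDegree := by
  -- the invariants
  obtain ⟨φ₁, hφ₁⟩ : ∃ φ : Polynomial k' →+* K,
      φ = (Polynomial.aeval (jv A₁ B₁) : Polynomial k' →ₐ[k'] K).toRingHom := ⟨_, rfl⟩
  rw [← hφ₁] at hF hroot
  have hfix : ∀ i, σ i (s (jv A₁ B₁)) = s (jv A₁ B₁) := fun i =>
    stab_fix hb hD₁ hfin₁ hA₁ hB₁ (σ i) (h2 i)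
  obtain ⟨ρ, hρ⟩ : ∃ ρ : ι → (K →ₐ[k] AlgebraicClosure k), ∀ i x, ρ i x = σ i (s x) :=
    ⟨fun i => ((σ i : AlgebraicClosure k →ₐ[k] AlgebraicClosure k).comp s), fun i x => rfl⟩
  obtain ⟨g, hg⟩ : ∃ g : ι → Polynomial (AlgebraicClosure k), ∀ i, g i = (F.map φ₁).map
      (ρ i : K →+* AlgebraicClosure k) := ⟨_, fun i => rfl⟩
  have hg0 : ∀ i, g i ≠ 0 := by
    intro i
    rw [hg, Ne, Polynomial.map_eq_zero]
    exact hF
  have hgd : ∀ i, (g i).natDegree ≤ F.natDegree := by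
    intro i
    rw [hg]
    exact Polynomial.natDegree_map_le.trans Polynomial.natDegree_map_le
  obtain ⟨ε, hε⟩ : ∃ ε : ι → (k' →ₐ[k] AlgebraicClosure k), ∀ i x, ε i x = ρ i x :=
    ⟨fun i => (ρ i).comp k'.val, fun i x => rfl⟩
  have hgε : ∀ i i', ε i = ε i' → g i = g i' := by
    intro i i' hii
    rw [hg, hg, Polynomial.map_map, Polynomial.map_map]
    congr 1
    refine Polynomial.ringHom_ext ?_ ?_
    · intro a
      rw [hφ₁]
      show ρ i (Polynomial.aeval (jv A₁ B₁) (Polynomial.C a)) =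
        ρ i' (Polynomial.aeval (jv A₁ B₁) (Polynomial.C a))
      rw [Polynomial.aeval_C]
      have e1 : ρ i (algebraMap k' K a) = ε i a := (hε i a).symm
      have e2 : ρ i' (algebraMap k' K a) = ε i' a := (hε i' a).symm
      rw [e1, e2, hii]
    · rw [hφ₁]
      show ρ i (Polynomial.aeval (jv A₁ B₁) Polynomial.X) =
        ρ i' (Polynomial.aeval (jv A₁ B₁) Polynomial.X)
      rw [Polynomial.aeval_X, hρ, hρ, hfix, hfix]
  have hrt : ∀ i, (g i).IsRoot (σ i (s (jv A₂ B₂))) := by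
    intro i
    rw [Polynomial.IsRoot.def, hg, Polynomial.eval_map, ← hρ]
    have : (F.map φ₁).eval₂ (ρ i : K →+* AlgebraicClosure k) (ρ i (jv A₂ B₂)) =
        ρ i ((F.map φ₁).eval (jv A₂ B₂)) :=
      Polynomial.eval₂_at_apply (ρ i : K →+* AlgebraicClosure k) (jv A₂ B₂)
    rw [this, hroot, map_zero]
  have hinj : Function.Injective fun i => σ i (s (jv A₂ B₂)) := by
    intro i i' hii
    apply h3
    have hii' : σ i (s (jv A₂ B₂)) = σ i' (s (jv A₂ B₂)) := hii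
    have e1 : ((σ i')⁻¹ * σ i) (s (jv A₂ B₂)) = s (jv A₂ B₂) := by
      show (σ i').symm (σ i (s (jv A₂ B₂))) = _
      rw [hii', AlgEquiv.symm_apply_apply]
    have e2 := fix_stab hb hL hD₂ f₂ hf₂ hfe₂ hy₂ hfin₂ ((σ i')⁻¹ * σ i) e1
    obtain ⟨m, hm⟩ := AddSubgroup.mem_zmultiples_iff.1 e2
    refine AddSubgroup.mem_zmultiples_iff.2 ⟨m, ?_⟩
    have e3 := congrArg (act A₀ B₀ (σ i')) hm
    rw [map_zsmul, ← act_mul] at e3
    rw [e3]
    congr 1
    group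
  have hfdk : FiniteDimensional k k' := IntermediateField.finiteDimensional_left k'
  have hfib : ∀ b ∈ Finset.univ.image ε, (Finset.univ.filter fun i => ε i = b).card ≤
      F.natDegree := by
    intro b hb'
    obtain ⟨i₀, -, rfl⟩ := Finset.mem_image.1 hb'
    have hsub : ((Finset.univ.filter fun i => ε i = ε i₀).image fun i => σ i (s (jv A₂ B₂))) ⊆
        (g i₀).roots.toFinset := by
      intro x hx
      obtain ⟨i, hi, rfl⟩ := Finset.mem_image.1 hx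
      rw [Multiset.mem_toFinset, Polynomial.mem_roots (hg0 i₀),
        ← hgε i i₀ (Finset.mem_filter.1 hi).2]
      exact hrt i
    have hcard := Finset.card_le_card hsub
    rw [Finset.card_image_of_injective _ hinj] at hcard
    exact hcard.trans ((Multiset.toFinset_card_le _).trans
      ((Polynomial.card_roots' (g i₀)).trans (hgd i₀)))
  have h4 := Finset.card_le_mul_card_image Finset.univ F.natDegree hfib
  have h5 : (Finset.univ.image ε).card ≤ Module.finrank k k' := by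
    refine le_trans ?_ (card_algHom_le_finrank k k' (AlgebraicClosure k))
    rw [Nat.card_eq_fintype_card]
    exact Finset.card_le_univ _
  rw [Finset.card_univ] at h4
  exact h4.trans (by rw [mul_comm]; exact Nat.mul_le_mul_right _ h5)

open scoped Classical in
/-- **algebraic relations** -/
theorem go_pair2 (k : Type) [Field k] [NumberField k] (K : Type) [Field K] [NumberField K]
    [Algebra k K] [FiniteDimensional k K] {A B A₁ B₁ A₂ B₂ : K}
    (hD : 4 * A ^ 3 + 27 * B ^ 2 ≠ 0) (hD₁ : 4 * A₁ ^ 3 + 27 * B₁ ^ 2 ≠ 0)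
    (hD₂ : 4 * A₂ ^ 3 + 27 * B₂ ^ 2 ≠ 0) {j : k} {N₁ N₂ : ℕ} (hN₁ : 0 < N₁) (hN₂ : 0 < N₂)
    (hj : ∀ A₀ B₀ : k, 4 * A₀ ^ 3 + 27 * B₀ ^ 2 ≠ 0 → jv A₀ B₀ = j →
      LQ A₀ B₀ ∧ HasSLn A₀ B₀ (N₁ * N₂))
    (hjv : jv A B = algebraMap k K j) (f₂ : EP A B →+ EP A₂ B₂) (hf₂ : Function.Surjective f₂)
    (hfe₂ : ∀ (σ : AlgebraicClosure K ≃ₐ[K] AlgebraicClosure K) (x : EP A B),
      f₂ (act A B σ x) = act A₂ B₂ σ (f₂ x))
    {y₁ y₂ : EP A B} (hy₂ : ∀ x, f₂ x = 0 ↔ x ∈ AddSubgroup.zmultiples y₂)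
    (ho₁ : addOrderOf y₁ = N₁) (ho₂ : addOrderOf y₂ = N₂)
    (hA₁ : algebraMap K (AlgebraicClosure K) A₁ = algebraMap K _ A -
      5 * ts (algebraMap K _ A) (AddSubgroup.zmultiples y₁ : Set (EP A B)))
    (hB₁ : algebraMap K (AlgebraicClosure K) B₁ = algebraMap K _ B -
      7 * ws (algebraMap K _ A) (algebraMap K _ B) (AddSubgroup.zmultiples y₁ : Set (EP A B)))
    {k' : IntermediateField k K} {F : Polynomial (Polynomial k')}
    (hF : F.map (Polynomial.aeval (jv A₁ B₁) : Polynomial k' →ₐ[k'] K).toRingHom ≠ 0)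
    (hroot : (F.map (Polynomial.aeval (jv A₁ B₁) : Polynomial k' →ₐ[k'] K).toRingHom).eval
      (jv A₂ B₂) = 0) :
    (∀ l f : ℕ, l.Prime →
      l ^ f ∣ (AddSubgroup.zmultiples y₁).relIndex (AddSubgroup.zmultiples y₂) →
      l ^ f ≤ 16 * (Module.finrank k k' * F.natDegree)) ∧
    (AddSubgroup.zmultiples y₁).relIndex (AddSubgroup.zmultiples y₂) ≤
      16 ^ ((AddSubgroup.zmultiples y₁).relIndex
        (AddSubgroup.zmultiples y₂)).primeFactors.card * (Module.finrank k k' * F.natDegree) := by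
  have hfin₁ : IsOfFinAddOrder y₁ := by
    rw [← addOrderOf_pos_iff, ho₁]
    exact hN₁
  have hfin₂ : IsOfFinAddOrder y₂ := by
    rw [← addOrderOf_pos_iff, ho₂]
    exact hN₂
  obtain ⟨e, s, A₀, B₀, u, ψ, hD0, hj0, hb⟩ := base_exists hD hjv
  obtain ⟨hL, P₀, Q₀, hB, hsl⟩ := hj A₀ B₀ hD0 hj0
  have hSLB : SLB (N₁ * N₂) P₀ Q₀ (fun σ => act A₀ B₀ σ) Set.univ := by
    refine ⟨hB, fun x y z w h => ?_⟩
    obtain ⟨σ, h1, h2⟩ := hsl x y z w (by exact_mod_cast h)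
    exact ⟨σ, Set.mem_univ _, h1, h2⟩
  have o₁ : addOrderOf (ψ y₁) = N₁ := (addOrderOf_injective ψ.toAddMonoidHom ψ.injective y₁).trans ho₁
  have o₂ : addOrderOf (ψ y₂) = N₂ := (addOrderOf_injective ψ.toAddMonoidHom ψ.injective y₂).trans ho₂
  have hmap : ∀ y : EP A B, (AddSubgroup.zmultiples y).map (ψ : EP A B →+ EP A₀ B₀) =
      AddSubgroup.zmultiples (ψ y) := by
    intro y
    rw [AddMonoidHom.map_zmultiples]
    rfl
  have hrel : (AddSubgroup.zmultiples (ψ y₁)).relIndex (AddSubgroup.zmultiples (ψ y₂)) =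
      (AddSubgroup.zmultiples y₁).relIndex (AddSubgroup.zmultiples y₂) := by
    rw [← hmap, ← hmap]
    exact AddSubgroup.relIndex_map_map_of_injective _ _ ψ.injective
  rw [← hrel]
  constructor
  · intro l f hl hd
    obtain ⟨n, σ, h1, h2, h3⟩ := family_all hN₁ hN₂ hSLB o₁ o₂ hl hd
    have h4 := count_le2 hb hL hD₁ hD₂ f₂ hf₂ hfe₂ hy₂ hfin₁ hfin₂ hA₁ hB₁ hF hroot σ h2 h3
    rw [Fintype.card_fin] at h4
    exact h1.trans (Nat.mul_le_mul_left 16 h4)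
  · have z₁ : (((N₁ * N₂ : ℕ)) : ℤ) • ψ y₁ = 0 := by
      rw [natCast_zsmul, mul_comm, mul_smul, ← o₁, addOrderOf_nsmul_eq_zero, smul_zero]
    have z₂ : (((N₁ * N₂ : ℕ)) : ℤ) • ψ y₂ = 0 := by
      rw [natCast_zsmul, mul_smul, ← o₂, addOrderOf_nsmul_eq_zero, smul_zero]
    obtain ⟨ι, hι, σ, h1, h2, h3⟩ := fam_prod (aV := fun σ => act A₀ B₀ σ)
      (fun σ τ x => act_mul A₀ B₀ σ τ x) (fun x => act_one A₀ B₀ x) (N₁ * N₂)
      (Nat.mul_pos hN₁ hN₂) Set.univ (fun _ _ _ _ => Set.mem_univ _) (Set.mem_univ _) P₀ Q₀ hSLB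
      (ψ y₁) (ψ y₂) z₁ z₂
    have h4 := count_le2 hb hL hD₁ hD₂ f₂ hf₂ hfe₂ hy₂ hfin₁ hfin₂ hA₁ hB₁ hF hroot σ
      (fun i => (h2 i).2) h3
    exact h1.trans (Nat.mul_le_mul_left _ h4)

end Pool.Agent.N495.GO
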