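import Pool.Agent.N495.GO.Alg

/-!
Many conjugates of a cyclic subgroup under the stabilizer of another one, primary case (helper495).
-/

set_option autoImplicit false

namespace Pool.Agent.N495.GO

open Pool.Agent.Q19.SU.Gen

section
variable {V G : Type*} [AddCommGroup V]

/-- the elements of `S` act on the span of `P` and `Q` by all matrices of determinant one -/
structure SLB (q : ℕ) (P Q : V) (aV : G → V →+ V) (S : Set G) : Prop where
  bas : Bas q P Q
  all : ∀ x y z w : ℤ, (q : ℤ) ∣ x * w - y * z - 1 →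
    ∃ σ ∈ S, aV σ P = x • P + z • Q ∧ aV σ Q = y • P + w • Q

theorem SLB.change {q : ℕ} {P Q : V} {aV : G → V →+ V} {S : Set G} (h : SLB q P Q aV S)
    {α γ δ η : ℤ} (hd : (q : ℤ) ∣ α * η - γ * δ - 1) :
    SLB q (α • P + γ • Q) (δ • P + η • Q) aV S := by
  have e1 : (α * η - γ * δ) • P = P := by
    have := smul_congr h.bas.hP (a := α * η - γ * δ) (b := 1) hd
    rw [this, one_smul]
  have e2 : (α * η - γ * δ) • Q = Q := by
    have := smul_congr h.bas.hQ (a := α * η - γ * δ) (b := 1) hd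
    rw [this, one_smul]
  have hP : P = η • (α • P + γ • Q) - γ • (δ • P + η • Q) := by
    have : η • (α • P + γ • Q) - γ • (δ • P + η • Q) = (α * η - γ * δ) • P := by module
    rw [this, e1]
  have hQ : Q = α • (δ • P + η • Q) - δ • (α • P + γ • Q) := by
    have : α • (δ • P + η • Q) - δ • (α • P + γ • Q) = (α * η - γ * δ) • Q := by module
    rw [this, e2]
  refine ⟨⟨?_, ?_, ?_, ?_⟩, ?_⟩
  · rw [smul_add, smul_comm, h.bas.hP, smul_zero, zero_add, smul_comm, h.bas.hQ, smul_zero]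
  · rw [smul_add, smul_comm, h.bas.hP, smul_zero, zero_add, smul_comm, h.bas.hQ, smul_zero]
  · intro R hR
    obtain ⟨a, b, rfl⟩ := h.bas.span R hR
    refine ⟨a * η - b * δ, b * α - a * γ, ?_⟩
    conv_lhs => rw [hP, hQ]
    module
  · intro a b hab
    have : (a * α + b * δ) • P + (a * γ + b * η) • Q = 0 := by
      rw [← hab]
      module
    obtain ⟨⟨c, hc⟩, ⟨d, hd'⟩⟩ := h.bas.ind _ _ this
    obtain ⟨κ, hκ⟩ := hd
    constructor
    · refine ⟨η * c - δ * d - a * κ, ?_⟩
      linear_combination η * hc - δ * hd' - a * hκ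
    · refine ⟨α * d - γ * c - b * κ, ?_⟩
      linear_combination α * hd' - γ * hc - b * hκ
  · intro x y z w hxw
    -- the matrix in the old basis
    obtain ⟨κ, hκ⟩ := hd
    obtain ⟨lam, hlam⟩ := hxw
    obtain ⟨σ, hσ, s1, s2⟩ := h.all
      ((α * x + δ * z) * η - (α * y + δ * w) * γ) (-((α * x + δ * z) * δ) + (α * y + δ * w) * α)
      ((γ * x + η * z) * η - (γ * y + η * w) * γ) (-((γ * x + η * z) * δ) + (γ * y + η * w) * α)
      ⟨κ * (α * η - γ * δ + 1) * (x * w - y * z) + lam, by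
        linear_combination ((α * η - γ * δ + 1) * (x * w - y * z)) * hκ + hlam⟩
    refine ⟨σ, hσ, ?_, ?_⟩
    · rw [map_add, map_zsmul, map_zsmul, s1, s2]
      have : α • (((α * x + δ * z) * η - (α * y + δ * w) * γ) • P +
          ((γ * x + η * z) * η - (γ * y + η * w) * γ) • Q) +
          γ • ((-((α * x + δ * z) * δ) + (α * y + δ * w) * α) • P +
          (-((γ * x + η * z) * δ) + (γ * y + η * w) * α) • Q) =
          (α * x + δ * z) • ((α * η - γ * δ) • P) + (γ * x + η * z) • ((α * η - γ * δ) • Q) := by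
        module
      rw [this, e1, e2]
      module
    · rw [map_add, map_zsmul, map_zsmul, s1, s2]
      have : δ • (((α * x + δ * z) * η - (α * y + δ * w) * γ) • P +
          ((γ * x + η * z) * η - (γ * y + η * w) * γ) • Q) +
          η • ((-((α * x + δ * z) * δ) + (α * y + δ * w) * α) • P +
          (-((γ * x + η * z) * δ) + (γ * y + η * w) * α) • Q) =
          (α * y + δ * w) • ((α * η - γ * δ) • P) + (γ * y + η * w) • ((α * η - γ * δ) • Q) := by
        module
      rw [this, e1, e2]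
      module

/-- primitive coordinates -/
theorem prim_of {l : ℕ} (hl : l.Prime) {r n : ℕ} (hn : n ≤ r) {P Q : V} (h : Bas (l ^ r) P Q)
    {y : V} (hy : addOrderOf y = l ^ n) : ∃ α γ : ℤ, (¬ (l : ℤ) ∣ α ∨ ¬ (l : ℤ) ∣ γ) ∧
      y = ((l : ℤ) ^ (r - n)) • (α • P + γ • Q) := by
  have hl1 : ¬ (l : ℤ) ∣ 1 := by
    intro hd
    have := Int.le_of_dvd one_pos hd
    have := hl.two_le
    omega
  rcases Nat.eq_zero_or_pos n with h0 | h0
  · subst h0
    rw [pow_zero, AddMonoid.addOrderOf_eq_one_iff] at hy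
    refine ⟨1, 0, Or.inl hl1, ?_⟩
    have := h.hP
    push_cast at this
    rw [hy, Nat.sub_zero, one_smul, zero_smul, add_zero, this]
  · obtain ⟨t, rfl⟩ : ∃ t, r = n + t := ⟨r - n, by omega⟩
    have hyn : ((l : ℤ) ^ n) • y = 0 := by
      have := addOrderOf_nsmul_eq_zero y
      rw [hy, ← natCast_zsmul] at this
      push_cast at this
      exact this
    obtain ⟨z, hz, hzy⟩ := div_of hl h hyn
    obtain ⟨α, γ, hαγ⟩ := h.span z (by push_cast; exact hz)
    refine ⟨α, γ, ?_, ?_⟩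
    · by_contra hcon
      push Not at hcon
      obtain ⟨⟨α', hα⟩, ⟨γ', hγ⟩⟩ := hcon
      have hP := h.hP
      have hQ := h.hQ
      push_cast at hP hQ
      have h3 : ((l : ℤ) ^ (n - 1)) • y = 0 := by
        rw [← hzy, hαγ, hα, hγ]
        have : ((l : ℤ) ^ (n - 1)) • ((l : ℤ) ^ t) • ((l * α') • P + (l * γ') • Q) =
            α' • ((l : ℤ) ^ (n - 1) * (l : ℤ) ^ t * l) • P +
              γ' • ((l : ℤ) ^ (n - 1) * (l : ℤ) ^ t * l) • Q := by module
        rw [this]
        have e : (l : ℤ) ^ (n - 1) * (l : ℤ) ^ t * l = (l : ℤ) ^ (n + t) := by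
          rw [← pow_add, ← pow_succ]
          congr 1
          omega
        rw [e, hP, hQ, smul_zero, smul_zero, add_zero]
      have h4 : addOrderOf y ∣ l ^ (n - 1) := by
        apply addOrderOf_dvd_of_nsmul_eq_zero
        rw [← natCast_zsmul]
        push_cast
        exact h3
      rw [hy] at h4
      have h5 := (Nat.pow_dvd_pow_iff_le_right hl.one_lt).1 h4
      omega
    · rw [← hzy, hαγ]
      congr 2
      omega

/-- the cross product of two elements of the same cyclic subgroup -/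
theorem cross {l : ℕ} (hl : l.Prime) {r n : ℕ} (hn : n ≤ r) {P Q : V} (h : Bas (l ^ r) P Q)
    {u v u' v' : ℤ} (hm : ((l : ℤ) ^ (r - n)) • (u • P + v • Q) ∈
      AddSubgroup.zmultiples (((l : ℤ) ^ (r - n)) • (u' • P + v' • Q))) :
    (l : ℤ) ^ n ∣ u * v' - u' * v := by
  have hl0 : (l : ℤ) ≠ 0 := by exact_mod_cast hl.ne_zero
  obtain ⟨m, hm⟩ := AddSubgroup.mem_zmultiples_iff.1 hm
  have h1 : ((l : ℤ) ^ (r - n) * (u - m * u')) • P + ((l : ℤ) ^ (r - n) * (v - m * v')) • Q = 0 := by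
    have : ((l : ℤ) ^ (r - n) * (u - m * u')) • P + ((l : ℤ) ^ (r - n) * (v - m * v')) • Q =
        ((l : ℤ) ^ (r - n)) • (u • P + v • Q) - m • ((l : ℤ) ^ (r - n)) • (u' • P + v' • Q) := by
      module
    rw [this, hm, sub_self]
  obtain ⟨h2, h3⟩ := h.ind _ _ h1
  have e : ((l ^ r : ℕ) : ℤ) = (l : ℤ) ^ (r - n) * (l : ℤ) ^ n := by
    push_cast
    rw [← pow_add]
    congr 1
    omega
  rw [e] at h2 h3
  obtain ⟨a, ha⟩ := (mul_dvd_mul_iff_left (pow_ne_zero _ hl0)).1 h2
  obtain ⟨b, hb⟩ := (mul_dvd_mul_iff_left (pow_ne_zero _ hl0)).1 h3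
  refine ⟨a * v' - b * u', ?_⟩
  linear_combination v' * ha - u' * hb

end

end Pool.Agent.N495.GO
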