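import Pool.Agent.N495.GO.Fam

/-!
Many conjugates of a cyclic subgroup under the stabilizer of another one, primary case (helper495).
-/

set_option autoImplicit false

namespace Pool.Agent.N495.GO

open Pool.Agent.Q19.SU.Gen

theorem dvd_of_prime_pow {l : ℕ} (hl : l.Prime) {n : ℕ} {x y : ℤ} (h : (l : ℤ) ^ n ∣ x * y)
    (hx : ¬ (l : ℤ) ∣ x) : (l : ℤ) ^ n ∣ y := by
  have hpp : _root_.Prime (l : ℤ) := Nat.prime_iff_prime_int.1 hl
  exact ((hpp.coprime_iff_not_dvd.2 hx).pow_left).dvd_of_dvd_mul_left h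

theorem unit_inv {l : ℕ} (hl : l.Prime) (n : ℕ) {x : ℤ} (hx : ¬ (l : ℤ) ∣ x) :
    ∃ x' : ℤ, (l : ℤ) ^ n ∣ x * x' - 1 := by
  have hpp : _root_.Prime (l : ℤ) := Nat.prime_iff_prime_int.1 hl
  obtain ⟨u, v, huv⟩ := (hpp.coprime_iff_not_dvd.2 hx).pow_left (m := n)
  exact ⟨v, -u, by linear_combination huv⟩

/-- many units with distinct squares -/
theorem sq_units {l : ℕ} (hl : l.Prime) (h : ℕ) : ∃ (n : ℕ) (t : Fin n → ℤ), l ^ h ≤ 16 * n ∧
    (∀ i, ¬ (l : ℤ) ∣ t i) ∧ ∀ i j, ((l : ℤ) ^ h ∣ (t i) ^ 2 - (t j) ^ 2) → i = j := by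
  have hl1 : ¬ (l : ℤ) ∣ 1 := by
    intro hd
    have := Int.le_of_dvd one_pos hd
    have := hl.two_le
    omega
  by_cases hs : l ^ h ≤ 16
  · exact ⟨1, fun _ => 1, by omega, fun _ => hl1, fun i j _ => Subsingleton.elim i j⟩
  push Not at hs
  obtain ⟨q, hq⟩ : ∃ q, q = l ^ h := ⟨_, rfl⟩
  have hqz : (l : ℤ) ^ h = (q : ℤ) := by rw [hq]; push_cast; rfl
  refine ⟨(q - 1) / 8, fun i => if (l : ℤ) ∣ 2 * (i : ℕ) + 1 then 2 * (i : ℕ) + 2 else
    2 * (i : ℕ) + 1, by rw [← hq] at hs ⊢; omega, ?_, ?_⟩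
  · intro i
    show ¬ (l : ℤ) ∣ (if (l : ℤ) ∣ 2 * (i : ℕ) + 1 then 2 * (i : ℕ) + 2 else 2 * (i : ℕ) + 1 : ℤ)
    split_ifs with hd
    · intro hd2
      apply hl1
      have := dvd_sub hd2 hd
      have e : (2 * ((i : ℕ) : ℤ) + 2) - (2 * ((i : ℕ) : ℤ) + 1) = 1 := by ring
      rwa [e] at this
    · exact hd
  · intro i j hij
    obtain ⟨s, hs1, hs2, hs3, hs4⟩ : ∃ s : ℤ, (if (l : ℤ) ∣ 2 * (i : ℕ) + 1 then
        2 * (i : ℕ) + 2 else 2 * (i : ℕ) + 1 : ℤ) = s ∧ 2 * ((i : ℕ) : ℤ) + 1 ≤ s ∧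
        s ≤ 2 * ((i : ℕ) : ℤ) + 2 ∧ ¬ (l : ℤ) ∣ s := by
      refine ⟨_, rfl, ?_, ?_, ?_⟩
      · split_ifs <;> omega
      · split_ifs <;> omega
      · split_ifs with hd
        · intro hd2
          apply hl1
          have := dvd_sub hd2 hd
          have e : (2 * ((i : ℕ) : ℤ) + 2) - (2 * ((i : ℕ) : ℤ) + 1) = 1 := by ring
          rwa [e] at this
        · exact hd
    obtain ⟨t, ht1, ht2, ht3, ht4⟩ : ∃ s : ℤ, (if (l : ℤ) ∣ 2 * (j : ℕ) + 1 then
        2 * (j : ℕ) + 2 else 2 * (j : ℕ) + 1 : ℤ) = s ∧ 2 * ((j : ℕ) : ℤ) + 1 ≤ s ∧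
        s ≤ 2 * ((j : ℕ) : ℤ) + 2 ∧ ¬ (l : ℤ) ∣ s := by
      refine ⟨_, rfl, ?_, ?_, ?_⟩
      · split_ifs <;> omega
      · split_ifs <;> omega
      · split_ifs with hd
        · intro hd2
          apply hl1
          have := dvd_sub hd2 hd
          have e : (2 * ((j : ℕ) : ℤ) + 2) - (2 * ((j : ℕ) : ℤ) + 1) = 1 := by ring
          rwa [e] at this
        · exact hd
    have hi := i.2
    have hj := j.2
    have hij' : (l : ℤ) ^ h ∣ s ^ 2 - t ^ 2 := by
      rw [← hs1, ← ht1]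
      exact hij
    have bs : 4 * s < q := by omega
    have bt : 4 * t < q := by omega
    have hfac : (l : ℤ) ^ h ∣ (s - t) * (s + t) := by
      have : (s - t) * (s + t) = s ^ 2 - t ^ 2 := by ring
      rw [this]
      exact hij'
    have key : s = t := by
      rcases hl.eq_two_or_odd' with h2 | hodd
      · -- the prime two
        subst h2
        have h2h : 2 ≤ h := by
          by_contra hcon
          have : h = 0 ∨ h = 1 := by omega
          rcases this with rfl | rfl <;> norm_num at hs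
        obtain ⟨m, rfl⟩ : ∃ m, h = m + 2 := ⟨h - 2, by omega⟩
        have q4 : (q : ℤ) = 4 * 2 ^ m := by
          rw [← hqz]
          push_cast
          ring
        obtain ⟨a, ha⟩ : ∃ a, s - t = 2 * a := by
          have : (2 : ℤ) ∣ s - t := by push_cast at hs4 ht4; omega
          exact this
        obtain ⟨b, hb⟩ : ∃ b, s + t = 2 * b := by
          have : (2 : ℤ) ∣ s + t := by push_cast at hs4 ht4; omega
          exact this
        have hab : ((2 : ℕ) : ℤ) ^ m ∣ a * b := by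
          obtain ⟨c, hc⟩ := hfac
          refine ⟨c, ?_⟩
          rw [ha, hb] at hc
          push_cast at hc ⊢
          have : (4 : ℤ) * (a * b) = 4 * (2 ^ m * c) := by
            rw [pow_add] at hc
            linear_combination hc
          exact mul_left_cancel₀ (by norm_num) this
        by_cases ha2 : (2 : ℤ) ∣ a
        · -- then `b` is odd
          have hb2 : ¬ ((2 : ℕ) : ℤ) ∣ b := by
            push_cast at hs4 ⊢
            omega
          have h3 := dvd_of_prime_pow Nat.prime_two (by rw [mul_comm]; exact hab) hb2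
          have h4 : a = 0 := by
            apply Int.eq_zero_of_abs_lt_dvd h3
            push_cast
            rw [abs_lt]
            constructor <;> linarith
          rw [h4, mul_zero] at ha
          linarith
        · have h3 := dvd_of_prime_pow Nat.prime_two hab (by push_cast; exact ha2)
          have h4 : b = 0 := by
            apply Int.eq_zero_of_abs_lt_dvd h3
            push_cast
            rw [abs_lt]
            constructor <;> linarith
          rw [h4, mul_zero] at hb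
          linarith
      · by_cases hd : (l : ℤ) ∣ s - t
        · have hd2 : ¬ (l : ℤ) ∣ s + t := by
            intro hd2
            have h5 : (l : ℤ) ∣ 2 * s := by
              have := dvd_add hd hd2
              have e : s - t + (s + t) = 2 * s := by ring
              rwa [e] at this
            have hpp : _root_.Prime (l : ℤ) := Nat.prime_iff_prime_int.1 hl
            rcases hpp.dvd_or_dvd h5 with h6 | h6
            · have h7 := Int.le_of_dvd (by norm_num) h6
              have h8 := hl.two_le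
              have h9 : l = 2 := by omega
              rw [h9] at hodd
              exact absurd hodd (by decide)
            · exact hs4 h6
          have h3 := dvd_of_prime_pow hl (by rw [mul_comm]; exact hfac) hd2
          have h4 : s - t = 0 := by
            apply Int.eq_zero_of_abs_lt_dvd h3
            rw [hqz, abs_lt]
            constructor <;> linarith
          linarith
        · have h3 := dvd_of_prime_pow hl hfac hd
          have h4 : s + t = 0 := by
            apply Int.eq_zero_of_abs_lt_dvd h3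
            rw [hqz, abs_lt]
            constructor <;> linarith
          linarith
    apply Fin.ext
    omega

section
variable {V G : Type*} [AddCommGroup V]

/-- **many conjugates** -/
theorem family {l : ℕ} (hl : l.Prime) {r n₁ n₂ : ℕ} (h1 : n₁ ≤ r) (h2 : n₂ ≤ r) {P Q : V}
    {aV : G → V →+ V} {S : Set G} (h : SLB (l ^ r) P Q aV S) {y₁ y₂ : V}
    (hy₁ : addOrderOf y₁ = l ^ n₁) (hy₂ : addOrderOf y₂ = l ^ n₂) :
    ∃ (e n : ℕ) (σ : Fin n → G), ((l : ℤ) ^ e) • y₂ ∈ AddSubgroup.zmultiples y₁ ∧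
      l ^ e ≤ 16 * n ∧ (∀ i, σ i ∈ S ∧ aV (σ i) y₁ ∈ AddSubgroup.zmultiples y₁) ∧
      ∀ i j, aV (σ i) y₂ ∈ AddSubgroup.zmultiples (aV (σ j) y₂) → i = j := by
  have hl0 : (l : ℤ) ≠ 0 := by exact_mod_cast hl.ne_zero
  have hpos : ∀ m : ℕ, 0 < l ^ m := fun m => pow_pos hl.pos m
  obtain ⟨α, γ, hαγ, hy1⟩ := prim_of hl h1 h.bas hy₁
  obtain ⟨δ, η, hdet⟩ : ∃ δ η : ℤ, ((l ^ r : ℕ) : ℤ) ∣ α * η - γ * δ - 1 := by
    rcases hαγ with ha | hc
    · obtain ⟨η, hη⟩ := unit_inv hl r ha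
      exact ⟨0, η, by push_cast; rw [mul_zero, sub_zero]; exact hη⟩
    · obtain ⟨δ, hδ⟩ := unit_inv hl r hc
      refine ⟨-δ, 0, ?_⟩
      push_cast
      have : α * 0 - γ * -δ - 1 = γ * δ - 1 := by ring
      rw [this]
      exact hδ
  have h' := h.change hdet
  obtain ⟨P₁, hP₁⟩ : ∃ P₁, P₁ = α • P + γ • Q := ⟨_, rfl⟩
  obtain ⟨Q₁, hQ₁⟩ : ∃ Q₁, Q₁ = δ • P + η • Q := ⟨_, rfl⟩
  rw [← hP₁, ← hQ₁] at h'
  rw [← hP₁] at hy1
  have hlP := h'.bas.hP
  have hlQ := h'.bas.hQ
  push_cast at hlP hlQ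
  obtain ⟨a, b, hab, hy2⟩ := prim_of hl h2 h'.bas hy₂
  by_cases hb : (l : ℤ) ∣ b
  swap
  · -- the subgroups are independent
    have hex : ∀ s : ℤ, ∃ σ ∈ S, aV σ P₁ = P₁ ∧ aV σ Q₁ = s • P₁ + Q₁ := by
      intro s
      obtain ⟨σ, hσ, e1, e2⟩ := h'.all 1 s 0 1 ⟨0, by ring⟩
      rw [one_smul, zero_smul, add_zero] at e1
      rw [one_smul] at e2
      exact ⟨σ, hσ, e1, e2⟩
    choose σ hσ e1 e2 using hex
    refine ⟨n₂, l ^ n₂, fun i => σ ((i : ℕ) : ℤ), ?_, by omega, ?_, ?_⟩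
    · have : ((l : ℤ) ^ n₂) • y₂ = 0 := by
        have := addOrderOf_nsmul_eq_zero y₂
        rw [hy₂, ← natCast_zsmul] at this
        push_cast at this
        exact this
      rw [this]
      exact AddSubgroup.zero_mem _
    · intro i
      refine ⟨hσ _, ?_⟩
      rw [hy1, map_zsmul, e1]
      exact AddSubgroup.mem_zmultiples _
    · intro i j hij
      have k1 : ∀ s : ℤ, aV (σ s) y₂ =
          ((l : ℤ) ^ (r - n₂)) • ((a + s * b) • P₁ + b • Q₁) := by
        intro s
        rw [hy2, map_zsmul, map_add, map_zsmul, map_zsmul, e1, e2]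
        module
      rw [k1, k1] at hij
      have h3 := cross hl h2 h'.bas hij
      have h4 : (l : ℤ) ^ n₂ ∣ b * (b * (((i : ℕ) : ℤ) - ((j : ℕ) : ℤ))) := by
        have : b * (b * (((i : ℕ) : ℤ) - ((j : ℕ) : ℤ))) =
            (a + ((i : ℕ) : ℤ) * b) * b - (a + ((j : ℕ) : ℤ) * b) * b := by ring
        rw [this]
        exact h3
      have h5 := dvd_of_prime_pow hl (dvd_of_prime_pow hl h4 hb) hb
      have h6 : ((i : ℕ) : ℤ) - ((j : ℕ) : ℤ) = 0 := by
        apply Int.eq_zero_of_abs_lt_dvd h5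
        have hi := i.2
        have hj := j.2
        have : ((l : ℤ) ^ n₂) = ((l ^ n₂ : ℕ) : ℤ) := by push_cast; rfl
        rw [this, abs_lt]
        constructor <;> omega
      apply Fin.ext
      omega
  · have ha : ¬ (l : ℤ) ∣ a := by
      rcases hab with h3 | h3
      · exact h3
      · exact absurd hb h3
    obtain ⟨β, hβ, hβb, hβx⟩ : ∃ β, β ≤ n₂ ∧ (l : ℤ) ^ β ∣ b ∧
        ∀ x : ℤ, (l : ℤ) ^ n₂ ∣ b * x → (l : ℤ) ^ (n₂ - β) ∣ x := by
      by_cases h0 : (l : ℤ) ^ n₂ ∣ b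
      · refine ⟨n₂, le_rfl, h0, fun x _ => ?_⟩
        rw [Nat.sub_self, pow_zero]
        exact one_dvd x
      · have hb0 : b ≠ 0 := by
          rintro rfl
          exact h0 (dvd_zero _)
        have hfin : FiniteMultiplicity (l : ℤ) b := by
          rw [Int.finiteMultiplicity_iff]
          refine ⟨?_, hb0⟩
          rw [Int.natAbs_natCast]
          exact hl.ne_one
        obtain ⟨b', h3, h4⟩ := hfin.exists_eq_pow_mul_and_not_dvd
        obtain ⟨β, hβd⟩ : ∃ β, β = multiplicity (l : ℤ) b := ⟨_, rfl⟩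
        rw [← hβd] at h3
        have hlt : β ≤ n₂ := by
          by_contra hcon
          push Not at hcon
          apply h0
          rw [h3]
          exact Dvd.dvd.mul_right (pow_dvd_pow _ hcon.le) _
        refine ⟨β, hlt, ⟨b', h3⟩, fun x hx => ?_⟩
        rw [h3, mul_assoc] at hx
        have e : (l : ℤ) ^ n₂ = (l : ℤ) ^ β * (l : ℤ) ^ (n₂ - β) := by
          rw [← pow_add]
          congr 1
          omega
        rw [e] at hx
        exact dvd_of_prime_pow hl ((mul_dvd_mul_iff_left (pow_ne_zero _ hl0)).1 hx) h4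
    have hmem : ∀ e : ℕ, n₂ - β ≤ e → n₂ - n₁ ≤ e →
        ((l : ℤ) ^ e) • y₂ ∈ AddSubgroup.zmultiples y₁ := by
      intro e he1 he2
      obtain ⟨b'', hb''⟩ := hβb
      refine AddSubgroup.mem_zmultiples_iff.2 ⟨(l : ℤ) ^ (e + n₁ - n₂) * a, ?_⟩
      have f1 : (l : ℤ) ^ (e + n₁ - n₂) * (l : ℤ) ^ (r - n₁) = (l : ℤ) ^ e * (l : ℤ) ^ (r - n₂) := by
        rw [← pow_add, ← pow_add]
        congr 1
        omega
      have f2 : (l : ℤ) ^ e * (l : ℤ) ^ (r - n₂) * (l : ℤ) ^ β =
          (l : ℤ) ^ (e + β - n₂) * (l : ℤ) ^ r := by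
        rw [← pow_add, ← pow_add, ← pow_add]
        congr 1
        omega
      rw [hy1, hy2, hb'']
      have f3 : ((l : ℤ) ^ e) • ((l : ℤ) ^ (r - n₂)) • (a • P₁ + ((l : ℤ) ^ β * b'') • Q₁) =
          (a * ((l : ℤ) ^ e * (l : ℤ) ^ (r - n₂))) • P₁ +
            (b'' * ((l : ℤ) ^ e * (l : ℤ) ^ (r - n₂) * (l : ℤ) ^ β)) • Q₁ := by module
      have f4 : (b'' * ((l : ℤ) ^ (e + β - n₂) * (l : ℤ) ^ r)) • Q₁ = 0 := by
        rw [← mul_assoc, mul_smul, hlQ, smul_zero]
      rw [f3, f2, ← f1, f4, add_zero, smul_smul]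
      congr 1
      ring
    rcases le_total (n₂ - n₁) (n₂ - β) with hc | hc
    · -- the torus
      obtain ⟨n, t, hn, htu, htd⟩ := sq_units hl (n₂ - β)
      have hex : ∀ i, ∃ (t' : ℤ) (σ : G), σ ∈ S ∧ (l : ℤ) ^ r ∣ t i * t' - 1 ∧
          aV σ P₁ = t i • P₁ ∧ aV σ Q₁ = t' • Q₁ := by
        intro i
        obtain ⟨t', ht'⟩ := unit_inv hl r (htu i)
        obtain ⟨σ, hσ, e1, e2⟩ := h'.all (t i) 0 0 t' (by
          have e0 : t i * t' - 0 * 0 - 1 = t i * t' - 1 := by ring
          rw [e0]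
          push_cast
          exact ht')
        rw [zero_smul, add_zero] at e1
        rw [zero_smul, zero_add] at e2
        exact ⟨t', σ, hσ, ht', e1, e2⟩
      choose t' σ hσ ht' e1 e2 using hex
      refine ⟨n₂ - β, n, σ, hmem _ le_rfl hc, hn, ?_, ?_⟩
      · intro i
        refine ⟨hσ i, ?_⟩
        rw [hy1, map_zsmul, e1, smul_comm]
        exact AddSubgroup.zsmul_mem_zmultiples _ _
      · intro i j hij
        apply htd
        have k1 : ∀ i, aV (σ i) y₂ =
            ((l : ℤ) ^ (r - n₂)) • ((a * t i) • P₁ + (b * t' i) • Q₁) := by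
          intro i
          rw [hy2, map_zsmul, map_add, map_zsmul, map_zsmul, e1, e2]
          module
        rw [k1, k1] at hij
        have h3 := cross hl h2 h'.bas hij
        apply hβx
        refine dvd_of_prime_pow hl (x := a) ?_ ha
        obtain ⟨c, hc1⟩ := h3
        have hle : (l : ℤ) ^ n₂ ∣ (l : ℤ) ^ r := pow_dvd_pow _ h2
        obtain ⟨c1, hc2⟩ := hle.trans (ht' i)
        obtain ⟨c2, hc3⟩ := hle.trans (ht' j)
        refine ⟨t i * t j * c - a * b * (t i) ^ 2 * c2 + a * b * (t j) ^ 2 * c1, ?_⟩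
        linear_combination (t i * t j) * hc1 - (a * b * (t i) ^ 2) * hc3 +
          (a * b * (t j) ^ 2) * hc2
    · -- the lower triangular matrices
      have hex : ∀ s : ℤ, ∃ σ ∈ S, aV σ P₁ = P₁ + ((l : ℤ) ^ n₁ * s) • Q₁ ∧ aV σ Q₁ = Q₁ := by
        intro s
        obtain ⟨σ, hσ, e1, e2⟩ := h'.all 1 0 ((l : ℤ) ^ n₁ * s) 1 ⟨0, by ring⟩
        rw [one_smul] at e1
        rw [zero_smul, one_smul, zero_add] at e2
        exact ⟨σ, hσ, e1, e2⟩
      choose σ hσ e1 e2 using hex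
      refine ⟨n₂ - n₁, l ^ (n₂ - n₁), fun i => σ ((i : ℕ) : ℤ), hmem _ hc le_rfl, by omega, ?_, ?_⟩
      · intro i
        refine ⟨hσ _, ?_⟩
        have : aV (σ ((i : ℕ) : ℤ)) y₁ = y₁ := by
          rw [hy1, map_zsmul, e1]
          have : ((l : ℤ) ^ (r - n₁)) • (P₁ + ((l : ℤ) ^ n₁ * ((i : ℕ) : ℤ)) • Q₁) =
              ((l : ℤ) ^ (r - n₁)) • P₁ +
                ((i : ℕ) : ℤ) • ((l : ℤ) ^ (r - n₁) * (l : ℤ) ^ n₁) • Q₁ := by module
          rw [this, ← pow_add, Nat.sub_add_cancel h1, hlQ, smul_zero, add_zero]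
        rw [this]
        exact AddSubgroup.mem_zmultiples _
      · intro i j hij
        have k1 : ∀ s : ℤ, aV (σ s) y₂ =
            ((l : ℤ) ^ (r - n₂)) • (a • P₁ + (a * ((l : ℤ) ^ n₁ * s) + b) • Q₁) := by
          intro s
          rw [hy2, map_zsmul, map_add, map_zsmul, map_zsmul, e1, e2]
          module
        rw [k1, k1] at hij
        have h3 := cross hl h2 h'.bas hij
        have h4 : (l : ℤ) ^ n₂ ∣
            a * (a * ((l : ℤ) ^ n₁ * (((j : ℕ) : ℤ) - ((i : ℕ) : ℤ)))) := by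
          have : a * (a * ((l : ℤ) ^ n₁ * (((j : ℕ) : ℤ) - ((i : ℕ) : ℤ)))) =
              a * (a * ((l : ℤ) ^ n₁ * ((j : ℕ) : ℤ)) + b) -
                a * (a * ((l : ℤ) ^ n₁ * ((i : ℕ) : ℤ)) + b) := by ring
          rw [this]
          exact h3
        have h5 := dvd_of_prime_pow hl (dvd_of_prime_pow hl h4 ha) ha
        rcases Nat.lt_or_ge n₁ n₂ with hlt | hge
        · have e : (l : ℤ) ^ n₂ = (l : ℤ) ^ n₁ * (l : ℤ) ^ (n₂ - n₁) := by
            rw [← pow_add]
            congr 1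
            omega
          rw [e] at h5
          have h6 := (mul_dvd_mul_iff_left (pow_ne_zero _ hl0)).1 h5
          have h7 : ((j : ℕ) : ℤ) - ((i : ℕ) : ℤ) = 0 := by
            apply Int.eq_zero_of_abs_lt_dvd h6
            have hi := i.2
            have hj := j.2
            have : ((l : ℤ) ^ (n₂ - n₁)) = ((l ^ (n₂ - n₁) : ℕ) : ℤ) := by push_cast; rfl
            rw [this, abs_lt]
            constructor <;> omega
          apply Fin.ext
          omega
        · have hi := i.2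
          have hj := j.2
          have e : n₂ - n₁ = 0 := by omega
          have e' : l ^ (n₂ - n₁) = 1 := by rw [e, pow_zero]
          apply Fin.ext
          omega

end

end Pool.Agent.N495.GO
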