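import Pool.Agent.N495.TS.GenB
import Pool.Agent.N495.GO.Alg

/-!
The kernel of a cyclic isogeny over the algebraic closure to a curve over an extension is stable over this
extension (helper495).
-/

set_option autoImplicit false

namespace Pool.Agent.N495.GO

open WeierstrassCurve NumberField
open Pool.Agent.H901R3.MS Pool.Agent.Y673.Loc Pool.Agent.Q19.SU Pool.Agent.N495.TS

theorem fac_mem {F E : Type*} [Field F] [Field E] [Algebra F E] [IsGalois F E]
    (M : IntermediateField F E) [FiniteDimensional F M] :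
    ∃ D : ℕ, 0 < D ∧ ∀ τ : E ≃ₐ[F] E, τ ^ D ∈ M.fixingSubgroup := by
  have h : M.fixingSubgroup.index ≠ 0 := by
    have := Subgroup.quotient_finite_of_isOpen M.fixingSubgroup M.fixingSubgroup_isOpen
    exact Subgroup.index_ne_zero_of_finite
  exact ⟨(M.fixingSubgroup.index).factorial, Nat.factorial_pos _, fun τ =>
    Subgroup.pow_mem_of_index_ne_zero_of_dvd h τ fun m h1 h2 => Nat.dvd_factorial h1 h2⟩

section
variable {k : Type} [Field k] [NumberField k]

omit [NumberField k] in
theorem LQ_pow {A B : k} (h : LQ A B) {l : ℕ} (hl : l.Prime) (r : ℕ) : HasSLn A B (l ^ r) := by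
  obtain ⟨p, hp, h1, h2⟩ := h
  by_cases hpl : p = l
  · subst hpl
    exact h2 r
  · exact h1 _ (pow_pos hl.pos r)
      fun hd => hpl ((Nat.prime_dvd_prime_iff_eq hp hl).1 (hp.dvd_of_dvd_pow hd))

open scoped Classical in
/-- the action of the Galois group of `M` -/
noncomputable def actM {M : IntermediateField k (AlgebraicClosure k)} (A B : M)
    (σ : AlgebraicClosure k ≃ₐ[M] AlgebraicClosure k) :
    ((CV A B).baseChange (AlgebraicClosure k)).toAffine.Point →+
      ((CV A B).baseChange (AlgebraicClosure k)).toAffine.Point :=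
  Affine.Point.map (W' := CV A B) (R := M) (S := M)
    (σ : AlgebraicClosure k →ₐ[M] AlgebraicClosure k)

open scoped Classical in
theorem go_stable {A B : k} (hL : LQ A B) (M : IntermediateField k (AlgebraicClosure k))
    [FiniteDimensional k M] (A' B' : M) (L : IntermediateField k (AlgebraicClosure k))
    [FiniteDimensional k L]
    (f : EP A B →+ ((CV A' B').baseChange (AlgebraicClosure k)).toAffine.Point)
    (hf : Function.Surjective f)
    (hfe : ∀ τ : AlgebraicClosure k ≃ₐ[M] AlgebraicClosure k,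
      τ.restrictScalars k ∈ L.fixingSubgroup →
      ∀ x, f (act A B (τ.restrictScalars k) x) = actM A' B' τ (f x))
    {y : EP A B} (hy : ∀ x, f x = 0 ↔ x ∈ AddSubgroup.zmultiples y) (hfin : IsOfFinAddOrder y) :
    ∀ σ ∈ M.fixingSubgroup, act A B σ y ∈ AddSubgroup.zmultiples y := by
  intro σ hσ
  obtain ⟨D₂, hD₂, h2⟩ := fac_mem M
  obtain ⟨D₁, hD₁, h1⟩ := fac_mem L
  have hex : ∀ τ ∈ M.fixingSubgroup, ∃ ρ : AlgebraicClosure k ≃ₐ[M] AlgebraicClosure k,
      AlgEquiv.restrictScalarsHom k ρ = τ := by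
    intro τ hτ
    refine ⟨IntermediateField.fixingSubgroupEquiv M ⟨τ, hτ⟩, ?_⟩
    ext x
    rfl
  obtain ⟨ρ, rfl⟩ := hex σ hσ
  refine stable_of (AlgEquiv.restrictScalarsHom k) (aV := fun σ => act A B σ)
    (aW := fun σ => actM A' B' σ) (fun σ τ x => act_mul A B σ τ x) (fun x => act_one A B x)
    ?_ ?_ ?_ hD₂ (fun τ => hex _ (h2 τ)) (L.fixingSubgroup.comap (AlgEquiv.restrictScalarsHom k))
    hD₁ (fun σ => ?_) hf (fun σ hσ x => hfe σ hσ x) hy hfin ρ
  · intro σ τ x
    unfold actM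
    rw [Affine.Point.map_map]
    rfl
  · intro x
    unfold actM
    rcases x with _ | ⟨x, y, h⟩
    · rfl
    · rfl
  · intro l hl r
    obtain ⟨P, Q, hB, hsl⟩ := LQ_pow hL hl r
    obtain ⟨τ₁, s1, s2⟩ := hsl 1 1 0 1 (by norm_num)
    obtain ⟨τ₂, t1, t2⟩ := hsl 1 0 1 1 (by norm_num)
    rw [one_zsmul, zero_zsmul, add_zero] at s1
    rw [one_zsmul, one_zsmul] at s2
    rw [one_zsmul, one_zsmul] at t1
    rw [zero_zsmul, one_zsmul, zero_add] at t2
    exact ⟨P, Q, hB, ⟨τ₁, s1, by rw [s2, add_comm]⟩, τ₂, t1, t2⟩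
  · rw [Subgroup.mem_comap, map_pow]
    exact h1 _

end

end Pool.Agent.N495.GO
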