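import Pool.Agent.N495.GO.Mod

/-!
Cyclic isogenies over extensions and stable cyclic subgroups over the field of the invariant of the target
(helper495).
-/

set_option autoImplicit false

namespace Pool.Agent.N495.GO

open WeierstrassCurve NumberField
open Pool.Agent.H901R3.MS Pool.Agent.W275.FM Pool.Agent.Y673.Loc Pool.Agent.Y673.FM
open Pool.Agent.Q19.SU Pool.Agent.N495.TS

open scoped Classical in
/-- **cyclic isogenies over extensions** -/
theorem go_main (k : Type) [Field k] [NumberField k] (K : Type) [Field K] [NumberField K]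
    [Algebra k K] [FiniteDimensional k K] {A B A' B' : K}
    (hD : 4 * A ^ 3 + 27 * B ^ 2 ≠ 0) (hD' : 4 * A' ^ 3 + 27 * B' ^ 2 ≠ 0) {j : k} (hj : LJk j)
    (hjv : jv A B = algebraMap k K j) (f : EP A B →+ EP A' B') (hf : Function.Surjective f)
    (hfe : ∀ (σ : AlgebraicClosure K ≃ₐ[K] AlgebraicClosure K) (x : EP A B),
      f (act A B σ x) = act A' B' σ (f x))
    {y : EP A B} (hy : ∀ x, f x = 0 ↔ x ∈ AddSubgroup.zmultiples y) (hfin : IsOfFinAddOrder y) :
    ∃ (A₀ B₀ : k) (M : IntermediateField k (AlgebraicClosure k)) (y₀ : EP A₀ B₀),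
      4 * A₀ ^ 3 + 27 * B₀ ^ 2 ≠ 0 ∧ jv A₀ B₀ = j ∧ FiniteDimensional k M ∧
      Module.finrank k M = Module.finrank k (IntermediateField.adjoin k {jv A' B'}) ∧
      addOrderOf y₀ = addOrderOf y ∧
      ∀ σ ∈ M.fixingSubgroup, act A₀ B₀ σ y₀ ∈ AddSubgroup.zmultiples y₀ := by
  have hcF : CharZero (AlgebraicClosure K) :=
    charZero_of_injective_algebraMap (algebraMap K (AlgebraicClosure K)).injective
  have hck : CharZero (AlgebraicClosure k) :=
    charZero_of_injective_algebraMap (algebraMap k (AlgebraicClosure k)).injective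
  have hcl : IsAlgClosure k (AlgebraicClosure K) :=
    ⟨inferInstance, Algebra.IsAlgebraic.trans k K (AlgebraicClosure K)⟩
  obtain ⟨ι, -⟩ : ∃ _ : AlgebraicClosure k ≃ₐ[k] AlgebraicClosure K, True :=
    ⟨IsAlgClosure.equiv k (AlgebraicClosure k) (AlgebraicClosure K), trivial⟩
  obtain ⟨e, he⟩ : ∃ e : AlgebraicClosure K ≃+* AlgebraicClosure k, ∀ x, e x = ι.symm x :=
    ⟨ι.symm.toRingEquiv, fun x => rfl⟩
  obtain ⟨s, hs⟩ : ∃ s : K →ₐ[k] AlgebraicClosure k, ∀ x, s x = e (algebraMap K _ x) :=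
    ⟨(ι.symm : AlgebraicClosure K →ₐ[k] AlgebraicClosure k).comp
      (IsScalarTower.toAlgHom k K (AlgebraicClosure K)), fun x => (he _).symm⟩
  obtain ⟨M, hM⟩ : ∃ M : IntermediateField k (AlgebraicClosure k),
      M = (IntermediateField.adjoin k {jv A' B'}).map s := ⟨_, rfl⟩
  have hfdM : FiniteDimensional k M := by
    rw [hM]
    exact ((IntermediateField.adjoin k {jv A' B'}).equivMap s).toLinearEquiv.finiteDimensional
  have hfrM : Module.finrank k M = Module.finrank k (IntermediateField.adjoin k {jv A' B'}) := by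
    rw [hM]
    exact ((IntermediateField.adjoin k {jv A' B'}).equivMap s).toLinearEquiv.finrank_eq.symm
  have hjM : s (jv A' B') ∈ M := by
    rw [hM]
    exact ⟨jv A' B', IntermediateField.mem_adjoin_simple_self k _, rfl⟩
  -- the models
  have hDs : ∀ {a b : K}, 4 * a ^ 3 + 27 * b ^ 2 ≠ 0 → 4 * (s a) ^ 3 + 27 * (s b) ^ 2 ≠ 0 := by
    intro a b h
    have : 4 * (s a) ^ 3 + 27 * (s b) ^ 2 = s (4 * a ^ 3 + 27 * b ^ 2) := by
      simp only [map_add, map_mul, map_pow, map_ofNat]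
    rw [this, Ne, map_eq_zero]
    exact h
  have hjs : ∀ {a b : K}, 4 * a ^ 3 + 27 * b ^ 2 ≠ 0 →
      s (jv a b) * (4 * (s a) ^ 3 + 27 * (s b) ^ 2) = 6912 * (s a) ^ 3 := by
    intro a b h
    have h1 : jv a b * (4 * a ^ 3 + 27 * b ^ 2) = 6912 * a ^ 3 := by
      unfold jv
      rw [div_mul_cancel₀ _ h]
    have h2 := congrArg s h1
    simp only [map_add, map_mul, map_pow, map_ofNat] at h2
    exact h2
  obtain ⟨A₀, B₀, u, hu, hA, hB⟩ := model (R := k) (hDs hD) (j := j) (by
    rw [← hjs hD, hjv, AlgHom.commutes])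
  obtain ⟨A₁, B₁, u', hu', hA', hB'⟩ := model (R := M) (hDs hD') (j := ⟨s (jv A' B'), hjM⟩) (by
    rw [← hjs hD']
    rfl)
  -- the first model
  have hΔ : 4 * (s A) ^ 3 + 27 * (s B) ^ 2 =
      u ^ 12 * algebraMap k _ (4 * A₀ ^ 3 + 27 * B₀ ^ 2) := by
    simp only [map_add, map_mul, map_pow, map_ofNat]
    rw [hA, hB]
    ring
  have hD0 : 4 * A₀ ^ 3 + 27 * B₀ ^ 2 ≠ 0 := by
    intro h
    apply hDs hD
    rw [hΔ, h, map_zero, mul_zero]
  have hj0 : jv A₀ B₀ = j := by
    unfold jv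
    rw [div_eq_iff hD0]
    apply (algebraMap k (AlgebraicClosure k)).injective
    have h1 := hjs hD
    rw [hΔ, hjv, AlgHom.commutes, hA] at h1
    have h2 : u ^ 12 ≠ 0 := pow_ne_zero _ hu
    apply mul_left_cancel₀ h2
    simp only [map_mul, map_pow, map_ofNat]
    linear_combination -h1
  obtain ⟨ψ, hψ⟩ := iso_exists (K := K) (R := k) e (A := A) (B := B) (a := A₀) (b := B₀) hu
    (by rw [← hs]; exact hA) (by rw [← hs]; exact hB)
  obtain ⟨ψ', hψ'⟩ := iso_exists (K := K) (R := M) e (A := A') (B := B') (a := A₁) (b := B₁) hu'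
    (by rw [← hs]; exact hA') (by rw [← hs]; exact hB')
  obtain ⟨f₀, hf₀⟩ : ∃ f₀ : EP A₀ B₀ →+
      ((CV A₁ B₁).baseChange (AlgebraicClosure k)).toAffine.Point,
      ∀ x, f₀ (ψ x) = ψ' (f x) :=
    ⟨(ψ'.toAddMonoidHom.comp f).comp ψ.symm.toAddMonoidHom, fun x => by
      show ψ' (f (ψ.symm (ψ x))) = _
      rw [AddEquiv.symm_apply_apply]⟩
  have hint : ∀ x : AlgebraicClosure k, IsIntegral k x := fun x =>
    Algebra.IsIntegral.isIntegral x
  have fu : FiniteDimensional k (IntermediateField.adjoin k {u}) :=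
    IntermediateField.adjoin.finiteDimensional (hint u)
  have fu' : FiniteDimensional k (IntermediateField.adjoin k {u'}) :=
    IntermediateField.adjoin.finiteDimensional (hint u')
  have fs : FiniteDimensional k s.fieldRange :=
    (AlgEquiv.ofInjectiveField s).toLinearEquiv.finiteDimensional
  refine ⟨A₀, B₀, M, ψ y, hD0, hj0, hfdM, hfrM, addOrderOf_injective ψ.toAddMonoidHom
    ψ.injective y, ?_⟩
  refine go_stable (hj.2.2 A₀ B₀ hD0 hj0) M A₁ B₁
    (s.fieldRange ⊔ (IntermediateField.adjoin k {u} ⊔ IntermediateField.adjoin k {u'})) f₀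
    ?_ ?_ ?_ ?_
  · intro z
    obtain ⟨x, hx⟩ := hf (ψ'.symm z)
    exact ⟨ψ x, by rw [hf₀, hx, AddEquiv.apply_symm_apply]⟩
  · intro τ hτ x
    obtain ⟨z, rfl⟩ := ψ.surjective x
    rw [IntermediateField.mem_fixingSubgroup_iff] at hτ
    have t1 : ∀ a : K, τ (s a) = s a := fun a =>
      hτ _ (le_sup_left (a := s.fieldRange) ⟨a, rfl⟩)
    have t2 : τ u = u := hτ _ (le_sup_right (a := s.fieldRange)
      (le_sup_left (a := IntermediateField.adjoin k {u})
        (IntermediateField.mem_adjoin_simple_self k u)))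
    have t3 : τ u' = u' := hτ _ (le_sup_right (a := s.fieldRange)
      (le_sup_right (a := IntermediateField.adjoin k {u})
        (IntermediateField.mem_adjoin_simple_self k u')))
    obtain ⟨σ, hσ⟩ : ∃ σ : AlgebraicClosure K ≃ₐ[K] AlgebraicClosure K, ∀ x, e (σ x) = τ (e x) := by
      refine ⟨AlgEquiv.ofRingEquiv (f := (e.trans ((τ : AlgebraicClosure k ≃+*
        AlgebraicClosure k).trans e.symm))) ?_, ?_⟩
      · intro a
        apply e.injective
        show e (e.symm (τ (e (algebraMap K (AlgebraicClosure K) a)))) = _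
        rw [RingEquiv.apply_symm_apply, ← hs, t1]
      · intro x
        show e (e.symm (τ (e x))) = _
        rw [RingEquiv.apply_symm_apply]
    have e1 : ψ (act A B σ z) = act A₀ B₀ (τ.restrictScalars k) (ψ z) :=
      hψ (σ : AlgebraicClosure K →ₐ[K] AlgebraicClosure K)
        ((τ.restrictScalars k : AlgebraicClosure k ≃ₐ[k] AlgebraicClosure k) :
          AlgebraicClosure k →ₐ[k] AlgebraicClosure k) (fun x => (hσ x).symm) t2 z
    have e2 : ψ' (act A' B' σ (f z)) = actM A₁ B₁ τ (ψ' (f z)) :=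
      hψ' (σ : AlgebraicClosure K →ₐ[K] AlgebraicClosure K)
        (τ : AlgebraicClosure k →ₐ[M] AlgebraicClosure k) (fun x => (hσ x).symm) t3 (f z)
    rw [← e1, hf₀, hf₀, hfe, e2]
  · intro x
    obtain ⟨z, rfl⟩ := ψ.surjective x
    rw [hf₀, map_eq_zero_iff ψ' ψ'.injective, hy]
    constructor
    · intro h
      obtain ⟨m, rfl⟩ := AddSubgroup.mem_zmultiples_iff.1 h
      exact AddSubgroup.mem_zmultiples_iff.2 ⟨m, by rw [map_zsmul]⟩
    · intro h
      obtain ⟨m, hm⟩ := AddSubgroup.mem_zmultiples_iff.1 h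
      rw [← map_zsmul] at hm
      exact AddSubgroup.mem_zmultiples_iff.2 ⟨m, ψ.injective hm⟩
  · have h1 := addOrderOf_injective ψ.toAddMonoidHom ψ.injective y
    rw [← addOrderOf_pos_iff]
    have h2 : addOrderOf (ψ y) = addOrderOf y := h1
    rw [h2]
    exact hfin.addOrderOf_pos

end Pool.Agent.N495.GO
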