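import Pool.Agent.N495.TS.TW
import Pool.Agent.N495.GO.Gal

/-!
Models over the field of moduli, and cyclic isogenies over extensions (helper495).
-/

set_option autoImplicit false

namespace Pool.Agent.N495.GO

open WeierstrassCurve NumberField
open Pool.Agent.H901R3.MS Pool.Agent.W275.FM Pool.Agent.Y673.Loc Pool.Agent.Y673.FM
open Pool.Agent.Q19.SU Pool.Agent.N495.TS

/-- a model over the field of the invariant -/
theorem model {R Ω : Type} [Field R] [Field Ω] [CharZero Ω] [IsAlgClosed Ω] [Algebra R Ω] {a b : Ω}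
    (hD : 4 * a ^ 3 + 27 * b ^ 2 ≠ 0) {j : R}
    (hj : algebraMap R Ω j * (4 * a ^ 3 + 27 * b ^ 2) = 6912 * a ^ 3) :
    ∃ (a₀ b₀ : R) (u : Ω), u ≠ 0 ∧ a = u ^ 4 * algebraMap R Ω a₀ ∧
      b = u ^ 6 * algebraMap R Ω b₀ := by
  by_cases ha : a = 0
  · have hb : b ≠ 0 := by
      rintro rfl
      apply hD
      rw [ha]
      ring
    obtain ⟨u, hu⟩ := IsAlgClosed.exists_pow_nat_eq b (n := 6) (by norm_num)
    refine ⟨0, 1, u, ?_, ?_, ?_⟩
    · rintro rfl
      apply hb
      rw [← hu]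
      ring
    · rw [ha, map_zero, mul_zero]
    · rw [map_one, mul_one, hu]
  by_cases hb : b = 0
  · obtain ⟨u, hu⟩ := IsAlgClosed.exists_pow_nat_eq a (n := 4) (by norm_num)
    refine ⟨1, 0, u, ?_, ?_, ?_⟩
    · rintro rfl
      apply ha
      rw [← hu]
      ring
    · rw [map_one, mul_one, hu]
    · rw [hb, map_zero, mul_zero]
  obtain ⟨u, hu⟩ := IsAlgClosed.exists_pow_nat_eq (b / a) (n := 2) (by norm_num)
  have hj1 : algebraMap R Ω j ≠ 1728 := by
    intro h
    rw [h] at hj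
    apply hb
    have : (46656 : Ω) * b ^ 2 = 0 := by linear_combination hj
    simpa using this
  have hj2 : (1728 : Ω) - algebraMap R Ω j ≠ 0 := sub_ne_zero.2 (Ne.symm hj1)
  have ht : algebraMap R Ω (27 * j / (4 * (1728 - j))) = a ^ 3 / b ^ 2 := by
    rw [map_div₀, map_mul, map_mul, map_sub, map_ofNat, map_ofNat, map_ofNat,
      div_eq_div_iff (mul_ne_zero (by norm_num) hj2) (pow_ne_zero 2 hb)]
    linear_combination hj
  refine ⟨27 * j / (4 * (1728 - j)), 27 * j / (4 * (1728 - j)), u, ?_, ?_, ?_⟩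
  · rintro rfl
    apply div_ne_zero hb ha
    rw [← hu]
    ring
  · rw [ht]
    have : u ^ 4 = (b / a) ^ 2 := by
      rw [← hu]
      ring
    rw [this]
    field_simp
  · rw [ht]
    have : u ^ 6 = (b / a) ^ 3 := by
      rw [← hu]
      ring
    rw [this]
    field_simp

open scoped Classical in
theorem map_eqv {R Ω : Type} [Field R] [Field Ω] [Algebra R Ω] (a b : R) (τ : Ω →ₐ[R] Ω)
    (P : ((CV a b).baseChange Ω).toAffine.Point) :
    eqv a b Ω (Affine.Point.map (W' := CV a b) (R := R) (S := R) τ P) =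
      mp a b τ (eqv a b Ω P) := by
  show _ = (eqv a b Ω) (Affine.Point.map (W' := CV a b) (R := R) (S := R) τ
    ((eqv a b Ω).symm (eqv a b Ω P)))
  rw [AddEquiv.symm_apply_apply]

open scoped Classical in
/-- an isomorphism with a curve over `R` -/
theorem iso_exists {F Ω K R : Type} [Field F] [Field Ω] [Field K] [Field R] [Algebra K F]
    [Algebra R Ω] [CharZero F] [CharZero Ω] (e : F ≃+* Ω) {A B : K} {a b : R} {u : Ω} (hu : u ≠ 0)
    (hA : e (algebraMap K F A) = u ^ 4 * algebraMap R Ω a)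
    (hB : e (algebraMap K F B) = u ^ 6 * algebraMap R Ω b) :
    ∃ ψ : ((CV A B).baseChange F).toAffine.Point ≃+ ((CV a b).baseChange Ω).toAffine.Point,
      ∀ (σ : F →ₐ[K] F) (τ : Ω →ₐ[R] Ω), (∀ x, τ (e x) = e (σ x)) → τ u = u →
        ∀ P, ψ (Affine.Point.map (W' := CV A B) (R := K) (S := K) σ P) =
          Affine.Point.map (W' := CV a b) (R := R) (S := R) τ (ψ P) := by
  have hA1 : (e : F →+* Ω) (ca F A) = u ^ 4 * ca Ω a := hA
  have hB1 : (e : F →+* Ω) (ca F B) = u ^ 6 * ca Ω b := hB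
  have hu2 : u ^ 2 ≠ 0 := pow_ne_zero _ hu
  have hu3 : u ^ 3 ≠ 0 := pow_ne_zero _ hu
  obtain ⟨v, hv⟩ : ∃ v : F, v = e.symm u⁻¹ := ⟨_, rfl⟩
  have hev : e v = u⁻¹ := by rw [hv, RingEquiv.apply_symm_apply]
  have hv0 : v ≠ 0 := by
    intro h
    rw [h, map_zero] at hev
    exact inv_ne_zero hu hev.symm
  have hA2 : (e.symm : Ω →+* F) (ca Ω a) = v ^ 4 * ca F A := by
    apply e.injective
    rw [map_mul, map_pow, hev]
    show e (e.symm (ca Ω a)) = _
    rw [RingEquiv.apply_symm_apply]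
    have : e (ca F A) = u ^ 4 * ca Ω a := hA
    rw [this]
    field_simp
  have hB2 : (e.symm : Ω →+* F) (ca Ω b) = v ^ 6 * ca F B := by
    apply e.injective
    rw [map_mul, map_pow, hev]
    show e (e.symm (ca Ω b)) = _
    rw [RingEquiv.apply_symm_apply]
    have : e (ca F B) = u ^ 6 * ca Ω b := hB
    rw [this]
    field_simp
  have hsurj : Function.Surjective (tw (e : F →+* Ω) u two_ne_zero hu hA1 hB1) := by
    intro P
    refine ⟨tw (e.symm : Ω →+* F) v two_ne_zero hv0 hA2 hB2 P, ?_⟩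
    rcases P with _ | ⟨x, y, h⟩
    · have e0 : (Affine.Point.zero : Pt (ca Ω a) (ca Ω b)) = 0 := rfl
      rw [e0, map_zero, map_zero]
    · rw [tw_some, tw_some]
      apply pt_ext'
      · show e (e.symm x / v ^ 2) / u ^ 2 = x
        rw [map_div₀, map_pow, hev, RingEquiv.apply_symm_apply]
        field_simp
      · show e (e.symm y / v ^ 3) / u ^ 3 = y
        rw [map_div₀, map_pow, hev, RingEquiv.apply_symm_apply]
        field_simp
  obtain ⟨T, hT⟩ : ∃ T : Pt (ca F A) (ca F B) ≃+ Pt (ca Ω a) (ca Ω b), ∀ P,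
      T P = tw (e : F →+* Ω) u two_ne_zero hu hA1 hB1 P :=
    ⟨AddEquiv.ofBijective (tw (e : F →+* Ω) u two_ne_zero hu hA1 hB1) ⟨tw_inj _ _ _ _ _ _, hsurj⟩,
      fun P => rfl⟩
  refine ⟨(eqv A B F).trans (T.trans (eqv a b Ω).symm), ?_⟩
  intro σ τ hστ hτu P
  apply (eqv a b Ω).injective
  rw [map_eqv]
  show eqv a b Ω ((eqv a b Ω).symm (T (eqv A B F _))) =
    mp a b τ (eqv a b Ω ((eqv a b Ω).symm (T (eqv A B F P))))
  rw [AddEquiv.apply_symm_apply, AddEquiv.apply_symm_apply, map_eqv]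
  rcases eqv A B F P with _ | ⟨x, y, hxy⟩
  · have e0 : (Affine.Point.zero : Pt (ca F A) (ca F B)) = 0 := rfl
    rw [e0, map_zero, map_zero, map_zero]
  · rw [mp_some, hT, hT, tw_some, tw_some, mp_some]
    apply pt_ext'
    · show e (σ x) / u ^ 2 = τ (e x / u ^ 2)
      rw [map_div₀, map_pow, hτu, hστ]
    · show e (σ y) / u ^ 3 = τ (e y / u ^ 3)
      rw [map_div₀, map_pow, hτu, hστ]

end Pool.Agent.N495.GO
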