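import Pool.Agent.N495.GO.Vel
import Pool.Agent.N495.GO.Crt

/-!
Pairs of cyclic isogenies and algebraic relations between the invariants of their targets (helper495).
-/

set_option autoImplicit false

namespace Pool.Agent.N495.GO

open WeierstrassCurve NumberField
open Pool.Agent.H901R3.MS Pool.Agent.W275.FM Pool.Agent.Y673.Loc Pool.Agent.Y673.FM
open Pool.Agent.Q19.SU Pool.Agent.N495.TS

section
variable {k : Type} [Field k] [NumberField k] {K : Type} [Field K] [NumberField K]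
  [Algebra k K] [FiniteDimensional k K]

open scoped Classical in
/-- the data of a model over `k` -/
structure Base (A B : K) (e : AlgebraicClosure K ≃+* AlgebraicClosure k)
    (s : K →ₐ[k] AlgebraicClosure k) (A₀ B₀ : k) (u : AlgebraicClosure k)
    (ψ : EP A B ≃+ EP A₀ B₀) : Prop where
  es : ∀ x, s x = e (algebraMap K _ x)
  u0 : u ≠ 0
  hA : s A = u ^ 4 * algebraMap k _ A₀
  hB : s B = u ^ 6 * algebraMap k _ B₀
  eqv : ∀ (σ : AlgebraicClosure K ≃ₐ[K] AlgebraicClosure K)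
    (τ : AlgebraicClosure k ≃ₐ[k] AlgebraicClosure k), (∀ x, τ (e x) = e (σ x)) → τ u = u →
    ∀ P, ψ (act A B σ P) = act A₀ B₀ τ (ψ P)
  crd : ∀ P, e (xc P) = u ^ 2 * xc (ψ P)

omit [NumberField k] [NumberField K] [FiniteDimensional k K] in
theorem s_disc (s : K →ₐ[k] AlgebraicClosure k) {a b : K} (h : 4 * a ^ 3 + 27 * b ^ 2 ≠ 0) :
    4 * (s a) ^ 3 + 27 * (s b) ^ 2 ≠ 0 := by
  have : 4 * (s a) ^ 3 + 27 * (s b) ^ 2 = s (4 * a ^ 3 + 27 * b ^ 2) := by
    simp only [map_add, map_mul, map_pow, map_ofNat]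
  rw [this, Ne, map_eq_zero]
  exact h

omit [NumberField k] [NumberField K] [FiniteDimensional k K] in
theorem s_jv (s : K →ₐ[k] AlgebraicClosure k) {a b : K} (h : 4 * a ^ 3 + 27 * b ^ 2 ≠ 0) :
    s (jv a b) * (4 * (s a) ^ 3 + 27 * (s b) ^ 2) = 6912 * (s a) ^ 3 := by
  have h1 : jv a b * (4 * a ^ 3 + 27 * b ^ 2) = 6912 * a ^ 3 := by
    unfold jv
    rw [div_mul_cancel₀ _ h]
  have h2 := congrArg s h1
  simp only [map_add, map_mul, map_pow, map_ofNat] at h2
  exact h2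

open scoped Classical in
theorem base_exists {A B : K} (hD : 4 * A ^ 3 + 27 * B ^ 2 ≠ 0) {j : k}
    (hjv : jv A B = algebraMap k K j) :
    ∃ (e : AlgebraicClosure K ≃+* AlgebraicClosure k) (s : K →ₐ[k] AlgebraicClosure k) (A₀ B₀ : k)
      (u : AlgebraicClosure k) (ψ : EP A B ≃+ EP A₀ B₀), 4 * A₀ ^ 3 + 27 * B₀ ^ 2 ≠ 0 ∧
      jv A₀ B₀ = j ∧ Base A B e s A₀ B₀ u ψ := by
  have hcF : CharZero (AlgebraicClosure K) :=
    charZero_of_injective_algebraMap (algebraMap K (AlgebraicClosure K)).injective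
  have hck : CharZero (AlgebraicClosure k) :=
    charZero_of_injective_algebraMap (algebraMap k (AlgebraicClosure k)).injective
  have hcl : IsAlgClosure k (AlgebraicClosure K) :=
    ⟨inferInstance, Algebra.IsAlgebraic.trans k K (AlgebraicClosure K)⟩
  obtain ⟨ι, -⟩ : ∃ _ : AlgebraicClosure k ≃ₐ[k] AlgebraicClosure K, True :=
    ⟨IsAlgClosure.equiv k (AlgebraicClosure k) (AlgebraicClosure K), trivial⟩
  obtain ⟨e, he⟩ : ∃ e : AlgebraicClosure K ≃+* AlgebraicClosure k, ∀ x, e x = ι.symm x :=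
    ⟨ι.symm.toRingEquiv, fun x => rfl⟩
  obtain ⟨s, hs⟩ : ∃ s : K →ₐ[k] AlgebraicClosure k, ∀ x, s x = e (algebraMap K _ x) :=
    ⟨(ι.symm : AlgebraicClosure K →ₐ[k] AlgebraicClosure k).comp
      (IsScalarTower.toAlgHom k K (AlgebraicClosure K)), fun x => (he _).symm⟩
  obtain ⟨A₀, B₀, u, hu, hA, hB⟩ := model (R := k) (s_disc s hD) (j := j) (by
    rw [← s_jv s hD, hjv, AlgHom.commutes])
  have hΔ : 4 * (s A) ^ 3 + 27 * (s B) ^ 2 =
      u ^ 12 * algebraMap k _ (4 * A₀ ^ 3 + 27 * B₀ ^ 2) := by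
    simp only [map_add, map_mul, map_pow, map_ofNat]
    rw [hA, hB]
    ring
  have hD0 : 4 * A₀ ^ 3 + 27 * B₀ ^ 2 ≠ 0 := by
    intro h
    apply s_disc s hD
    rw [hΔ, h, map_zero, mul_zero]
  have hj0 : jv A₀ B₀ = j := by
    unfold jv
    rw [div_eq_iff hD0]
    apply (algebraMap k (AlgebraicClosure k)).injective
    have h1 := s_jv s hD
    rw [hΔ, hjv, AlgHom.commutes, hA] at h1
    have h2 : u ^ 12 ≠ 0 := pow_ne_zero _ hu
    apply mul_left_cancel₀ h2
    simp only [map_mul, map_pow, map_ofNat]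
    linear_combination -h1
  obtain ⟨ψ, hψ, hψc⟩ := iso_exists2 (K := K) (R := k) e (A := A) (B := B) (a := A₀) (b := B₀) hu
    (by rw [← hs]; exact hA) (by rw [← hs]; exact hB)
  exact ⟨e, s, A₀, B₀, u, ψ, hD0, hj0, hs, hu, hA, hB, fun σ τ h1 h2 P =>
    hψ (σ : AlgebraicClosure K →ₐ[K] AlgebraicClosure K)
      (τ : AlgebraicClosure k →ₐ[k] AlgebraicClosure k) h1 h2 P, hψc⟩

open scoped Classical in
/-- automorphisms which fix the invariant of the target stabilize the kernel -/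
theorem fix_stab {A B : K} {e : AlgebraicClosure K ≃+* AlgebraicClosure k}
    {s : K →ₐ[k] AlgebraicClosure k} {A₀ B₀ : k} {u : AlgebraicClosure k}
    {ψ : EP A B ≃+ EP A₀ B₀} (hb : Base A B e s A₀ B₀ u ψ) (hL : LQ A₀ B₀) {A' B' : K}
    (hD' : 4 * A' ^ 3 + 27 * B' ^ 2 ≠ 0) (f : EP A B →+ EP A' B') (hf : Function.Surjective f)
    (hfe : ∀ (σ : AlgebraicClosure K ≃ₐ[K] AlgebraicClosure K) (x : EP A B),
      f (act A B σ x) = act A' B' σ (f x))
    {y : EP A B} (hy : ∀ x, f x = 0 ↔ x ∈ AddSubgroup.zmultiples y) (hfin : IsOfFinAddOrder y)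
    (τ : AlgebraicClosure k ≃ₐ[k] AlgebraicClosure k) (hτ : τ (s (jv A' B')) = s (jv A' B')) :
    act A₀ B₀ τ (ψ y) ∈ AddSubgroup.zmultiples (ψ y) := by
  have hcF : CharZero (AlgebraicClosure K) :=
    charZero_of_injective_algebraMap (algebraMap K (AlgebraicClosure K)).injective
  have hck : CharZero (AlgebraicClosure k) :=
    charZero_of_injective_algebraMap (algebraMap k (AlgebraicClosure k)).injective
  have hs := hb.es
  have hint : ∀ x : AlgebraicClosure k, IsIntegral k x := fun x =>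
    Algebra.IsIntegral.isIntegral x
  obtain ⟨M, hM⟩ : ∃ M : IntermediateField k (AlgebraicClosure k),
      M = IntermediateField.adjoin k {s (jv A' B')} := ⟨_, rfl⟩
  have hfdM : FiniteDimensional k M := by
    rw [hM]
    exact IntermediateField.adjoin.finiteDimensional (hint _)
  have hjM : s (jv A' B') ∈ M := by
    rw [hM]
    exact IntermediateField.mem_adjoin_simple_self k _
  have hτM : τ ∈ M.fixingSubgroup := by
    have h1 : M ≤ IntermediateField.fixedField (Subgroup.zpowers τ) := by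
      rw [hM, IntermediateField.adjoin_le_iff, Set.singleton_subset_iff]
      rw [SetLike.mem_coe, IntermediateField.mem_fixedField_iff]
      intro g hg
      obtain ⟨m, rfl⟩ := Subgroup.mem_zpowers_iff.1 hg
      have hst : τ ∈ MulAction.stabilizer (AlgebraicClosure k ≃ₐ[k] AlgebraicClosure k)
          (s (jv A' B')) := hτ
      exact Subgroup.zpow_mem _ hst m
    rw [IntermediateField.mem_fixingSubgroup_iff]
    intro x hx
    exact (IntermediateField.mem_fixedField_iff _ _).1 (h1 hx) τ (Subgroup.mem_zpowers τ)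
  obtain ⟨A₁, B₁, u', hu', hA', hB'⟩ := model (R := M) (s_disc s hD') (j := ⟨s (jv A' B'), hjM⟩) (by
    rw [← s_jv s hD']
    rfl)
  obtain ⟨ψ', hψ'⟩ := iso_exists (K := K) (R := M) e (A := A') (B := B') (a := A₁) (b := B₁) hu'
    (by rw [← hs]; exact hA') (by rw [← hs]; exact hB')
  obtain ⟨f₀, hf₀⟩ : ∃ f₀ : EP A₀ B₀ →+
      ((CV A₁ B₁).baseChange (AlgebraicClosure k)).toAffine.Point,
      ∀ x, f₀ (ψ x) = ψ' (f x) :=
    ⟨(ψ'.toAddMonoidHom.comp f).comp ψ.symm.toAddMonoidHom, fun x => by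
      show ψ' (f (ψ.symm (ψ x))) = _
      rw [AddEquiv.symm_apply_apply]⟩
  have fu : FiniteDimensional k (IntermediateField.adjoin k {u}) :=
    IntermediateField.adjoin.finiteDimensional (hint u)
  have fu' : FiniteDimensional k (IntermediateField.adjoin k {u'}) :=
    IntermediateField.adjoin.finiteDimensional (hint u')
  have fs : FiniteDimensional k s.fieldRange :=
    (AlgEquiv.ofInjectiveField s).toLinearEquiv.finiteDimensional
  refine go_stable hL M A₁ B₁
    (s.fieldRange ⊔ (IntermediateField.adjoin k {u} ⊔ IntermediateField.adjoin k {u'})) f₀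
    ?_ ?_ ?_ ?_ τ hτM
  · intro z
    obtain ⟨x, hx⟩ := hf (ψ'.symm z)
    exact ⟨ψ x, by rw [hf₀, hx, AddEquiv.apply_symm_apply]⟩
  · intro τ hτ x
    obtain ⟨z, rfl⟩ := ψ.surjective x
    rw [IntermediateField.mem_fixingSubgroup_iff] at hτ
    have t1 : ∀ a : K, τ (s a) = s a := fun a =>
      hτ _ (le_sup_left (a := s.fieldRange) ⟨a, rfl⟩)
    have t2 : τ u = u := hτ _ (le_sup_right (a := s.fieldRange)
      (le_sup_left (a := IntermediateField.adjoin k {u})
        (IntermediateField.mem_adjoin_simple_self k u)))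
    have t3 : τ u' = u' := hτ _ (le_sup_right (a := s.fieldRange)
      (le_sup_right (a := IntermediateField.adjoin k {u})
        (IntermediateField.mem_adjoin_simple_self k u')))
    obtain ⟨σ, hσ⟩ : ∃ σ : AlgebraicClosure K ≃ₐ[K] AlgebraicClosure K, ∀ x, e (σ x) = τ (e x) := by
      refine ⟨AlgEquiv.ofRingEquiv (f := (e.trans ((τ : AlgebraicClosure k ≃+*
        AlgebraicClosure k).trans e.symm))) ?_, ?_⟩
      · intro a
        apply e.injective
        show e (e.symm (τ (e (algebraMap K (AlgebraicClosure K) a)))) = _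
        rw [RingEquiv.apply_symm_apply, ← hs, t1]
      · intro x
        show e (e.symm (τ (e x))) = _
        rw [RingEquiv.apply_symm_apply]
    have e1 : ψ (act A B σ z) = act A₀ B₀ (τ.restrictScalars k) (ψ z) :=
      hb.eqv σ (τ.restrictScalars k) (fun x => (hσ x).symm) t2 z
    have e2 : ψ' (act A' B' σ (f z)) = actM A₁ B₁ τ (ψ' (f z)) :=
      hψ' (σ : AlgebraicClosure K →ₐ[K] AlgebraicClosure K)
        (τ : AlgebraicClosure k →ₐ[M] AlgebraicClosure k) (fun x => (hσ x).symm) t3 (f z)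
    rw [← e1, hf₀, hf₀, hfe, e2]
  · intro x
    obtain ⟨z, rfl⟩ := ψ.surjective x
    rw [hf₀, map_eq_zero_iff ψ' ψ'.injective, hy]
    constructor
    · intro h
      obtain ⟨m, rfl⟩ := AddSubgroup.mem_zmultiples_iff.1 h
      exact AddSubgroup.mem_zmultiples_iff.2 ⟨m, by rw [map_zsmul]⟩
    · intro h
      obtain ⟨m, hm⟩ := AddSubgroup.mem_zmultiples_iff.1 h
      rw [← map_zsmul] at hm
      exact AddSubgroup.mem_zmultiples_iff.2 ⟨m, ψ.injective hm⟩
  · have h1 := addOrderOf_injective ψ.toAddMonoidHom ψ.injective y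
    rw [← addOrderOf_pos_iff]
    have h2 : addOrderOf (ψ y) = addOrderOf y := h1
    rw [h2]
    exact hfin.addOrderOf_pos

omit [FiniteDimensional k K] in
open scoped Classical in
/-- automorphisms which stabilize the kernel fix the invariant of the target -/
theorem stab_fix {A B : K} {e : AlgebraicClosure K ≃+* AlgebraicClosure k}
    {s : K →ₐ[k] AlgebraicClosure k} {A₀ B₀ : k} {u : AlgebraicClosure k}
    {ψ : EP A B ≃+ EP A₀ B₀} (hb : Base A B e s A₀ B₀ u ψ) {A' B' : K}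
    (hD' : 4 * A' ^ 3 + 27 * B' ^ 2 ≠ 0) {y : EP A B} (hfin : IsOfFinAddOrder y)
    (hA' : algebraMap K (AlgebraicClosure K) A' = algebraMap K _ A -
      5 * ts (algebraMap K _ A) (AddSubgroup.zmultiples y : Set (EP A B)))
    (hB' : algebraMap K (AlgebraicClosure K) B' = algebraMap K _ B -
      7 * ws (algebraMap K _ A) (algebraMap K _ B) (AddSubgroup.zmultiples y : Set (EP A B)))
    (τ : AlgebraicClosure k ≃ₐ[k] AlgebraicClosure k)
    (hτ : act A₀ B₀ τ (ψ y) ∈ AddSubgroup.zmultiples (ψ y)) :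
    τ (s (jv A' B')) = s (jv A' B') := by
  obtain ⟨H, hH⟩ : ∃ H : Set (EP A B), H = (AddSubgroup.zmultiples y : Set (EP A B)) := ⟨_, rfl⟩
  obtain ⟨H', hH'⟩ : ∃ H' : Set (EP A₀ B₀), H' = (AddSubgroup.zmultiples (ψ y) : Set (EP A₀ B₀)) :=
    ⟨_, rfl⟩
  rw [← hH] at hA' hB'
  have hfinH : H.Finite := by
    rw [hH]
    exact hfin.finite_zmultiples
  have hmem : ∀ x, x ∈ H ↔ ψ x ∈ H' := by
    intro x
    rw [hH, hH', SetLike.mem_coe, SetLike.mem_coe]
    constructor
    · intro h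
      obtain ⟨m, rfl⟩ := AddSubgroup.mem_zmultiples_iff.1 h
      exact AddSubgroup.mem_zmultiples_iff.2 ⟨m, by rw [map_zsmul]⟩
    · intro h
      obtain ⟨m, hm⟩ := AddSubgroup.mem_zmultiples_iff.1 h
      rw [← map_zsmul] at hm
      exact AddSubgroup.mem_zmultiples_iff.2 ⟨m, ψ.injective hm⟩
  have hbij : Set.BijOn (ψ : EP A B →+ EP A₀ B₀) (H \ {0}) (H' \ {0}) := by
    refine ⟨?_, ψ.injective.injOn, ?_⟩
    · rintro x ⟨hx, hx0⟩
      refine ⟨(hmem x).1 hx, fun h0 => hx0 ?_⟩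
      exact (map_eq_zero_iff ψ ψ.injective).1 h0
    · rintro z ⟨hz, hz0⟩
      obtain ⟨x, rfl⟩ := ψ.surjective z
      refine ⟨x, ⟨(hmem x).2 hz, fun h0 => hz0 ?_⟩, rfl⟩
      rw [Set.mem_singleton_iff] at h0
      rw [h0, map_zero]
      rfl
  obtain ⟨s1, s2⟩ := sums_map (e : AlgebraicClosure K →+* AlgebraicClosure k)
    (a := algebraMap K _ A) (b := algebraMap K _ B) (a' := algebraMap k _ A₀)
    (b' := algebraMap k _ B₀) (by rw [← hb.hA]; exact (hb.es A).symm)
    (by rw [← hb.hB]; exact (hb.es B).symm) (ψ : EP A B →+ EP A₀ B₀) (fun P => hb.crd P) hfinH hbij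
  have hfinH' : H'.Finite := by
    refine (hfinH.image ψ).subset ?_
    intro z hz
    obtain ⟨x, rfl⟩ := ψ.surjective z
    exact ⟨x, (hmem x).2 hz, rfl⟩
  have hinj : Function.Injective (act A₀ B₀ τ) := Affine.Point.map_injective _
  have hmaps : ∀ z ∈ H' \ {0}, act A₀ B₀ τ z ∈ H' \ {0} := by
    rintro z ⟨hz, hz0⟩
    rw [hH', SetLike.mem_coe] at hz
    obtain ⟨m, rfl⟩ := AddSubgroup.mem_zmultiples_iff.1 hz
    refine ⟨?_, fun h0 => hz0 ?_⟩
    · rw [hH', SetLike.mem_coe, map_zsmul]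
      exact AddSubgroup.zsmul_mem _ hτ m
    · exact (map_eq_zero_iff _ hinj).1 h0
  have himg : (act A₀ B₀ τ) '' (H' \ {0}) = H' \ {0} := by
    refine Set.eq_of_subset_of_ncard_le ?_ ?_ (hfinH'.subset Set.sdiff_subset)
    · rintro _ ⟨z, hz, rfl⟩
      exact hmaps z hz
    · rw [Set.ncard_image_of_injective _ hinj]
  have hbij2 : Set.BijOn (act A₀ B₀ τ) (H' \ {0}) (H' \ {0}) :=
    ⟨hmaps, hinj.injOn, himg.symm.subset⟩
  obtain ⟨t1, t2⟩ := sums_map (u := (1 : AlgebraicClosure k))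
    ((τ : AlgebraicClosure k ≃+* AlgebraicClosure k) : AlgebraicClosure k →+* AlgebraicClosure k)
    (a := algebraMap k _ A₀) (b := algebraMap k _ B₀) (a' := algebraMap k _ A₀)
    (b' := algebraMap k _ B₀) (by rw [one_pow, one_mul]; exact τ.commutes A₀)
    (by rw [one_pow, one_mul]; exact τ.commutes B₀) (act A₀ B₀ τ)
    (fun P => by
      rw [one_pow, one_mul]
      exact (xc_map A₀ B₀ (τ : AlgebraicClosure k →ₐ[k] AlgebraicClosure k) P).symm) hfinH' hbij2
  rw [one_pow, one_mul] at t1 t2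
  obtain ⟨T, hT⟩ : ∃ T, T = ts (algebraMap k (AlgebraicClosure k) A₀) H' := ⟨_, rfl⟩
  obtain ⟨U, hU⟩ : ∃ U, U = ws (algebraMap k (AlgebraicClosure k) A₀)
    (algebraMap k (AlgebraicClosure k) B₀) H' := ⟨_, rfl⟩
  have t1' : τ T = T := by rw [hT]; exact t1
  have t2' : τ U = U := by rw [hU]; exact t2
  have sA : s A' = u ^ 4 * (algebraMap k _ A₀ - 5 * T) := by
    rw [hb.es, hA', map_sub, map_mul, ← hb.es, hb.hA, map_ofNat, hT]
    have : e (ts (algebraMap K (AlgebraicClosure K) A) H) =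
        u ^ 4 * ts (algebraMap k (AlgebraicClosure k) A₀) H' := s1
    rw [this]
    ring
  have sB : s B' = u ^ 6 * (algebraMap k _ B₀ - 7 * U) := by
    rw [hb.es, hB', map_sub, map_mul, ← hb.es, hb.hB, map_ofNat, hU]
    have : e (ws (algebraMap K (AlgebraicClosure K) A) (algebraMap K (AlgebraicClosure K) B) H) =
        u ^ 6 * ws (algebraMap k (AlgebraicClosure k) A₀) (algebraMap k (AlgebraicClosure k) B₀) H' :=
      s2
    rw [this]
    ring
  obtain ⟨X, hX⟩ : ∃ X, X = algebraMap k (AlgebraicClosure k) A₀ - 5 * T := ⟨_, rfl⟩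
  obtain ⟨Y, hY⟩ : ∃ Y, Y = algebraMap k (AlgebraicClosure k) B₀ - 7 * U := ⟨_, rfl⟩
  have hτX : τ X = X := by
    rw [hX, map_sub, map_mul, AlgEquiv.commutes, t1', map_ofNat]
  have hτY : τ Y = Y := by
    rw [hY, map_sub, map_mul, AlgEquiv.commutes, t2', map_ofNat]
  rw [← hX] at sA
  rw [← hY] at sB
  have hj := s_jv s hD'
  have hd := s_disc s hD'
  rw [sA, sB] at hj hd
  have hu12 : u ^ 12 ≠ 0 := pow_ne_zero _ hb.u0
  have hd' : 4 * X ^ 3 + 27 * Y ^ 2 ≠ 0 := by
    intro h0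
    apply hd
    have : 4 * (u ^ 4 * X) ^ 3 + 27 * (u ^ 6 * Y) ^ 2 = u ^ 12 * (4 * X ^ 3 + 27 * Y ^ 2) := by
      ring
    rw [this, h0, mul_zero]
  have hj' : s (jv A' B') * (4 * X ^ 3 + 27 * Y ^ 2) = 6912 * X ^ 3 := by
    apply mul_left_cancel₀ hu12
    linear_combination hj
  have hj'' := congrArg τ hj'
  simp only [map_mul, map_add, map_pow, map_ofNat, hτX, hτY] at hj''
  exact mul_right_cancel₀ hd' (hj''.trans hj'.symm)

end

end Pool.Agent.N495.GO
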