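import Pool.Agent.N495.GO.UJ

/-!
Degrees of invariants over the maximal solvable extension (helper495).
-/

set_option autoImplicit false

namespace Pool.Agent.N495.GO

open Pool.Agent.Q19.SU.Gen

section
variable {V G : Type*} [AddCommGroup V] [Group G]

/-- the action by a matrix -/
def ActM (aV : G → V →+ V) (P Q : V) (τ : G) (a b c d : ℤ) : Prop :=
  aV τ P = a • P + c • Q ∧ aV τ Q = b • P + d • Q

theorem ActM.mul {aV : G → V →+ V} (mulV : ∀ σ τ x, aV (σ * τ) x = aV σ (aV τ x)) {P Q : V}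
    {σ τ : G} {a b c d a' b' c' d' : ℤ} (h : ActM aV P Q σ a b c d)
    (h' : ActM aV P Q τ a' b' c' d') :
    ActM aV P Q (σ * τ) (a * a' + b * c') (a * b' + b * d') (c * a' + d * c') (c * b' + d * d') := by
  constructor
  · rw [mulV, h'.1, map_add, map_zsmul, map_zsmul, h.1, h.2]
    module
  · rw [mulV, h'.2, map_add, map_zsmul, map_zsmul, h.1, h.2]
    module

omit [Group G] in
theorem ActM.congr {aV : G → V →+ V} {P Q : V} {N : ℕ} (hB : Bas N P Q) {τ : G}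
    {a b c d a' b' c' d' : ℤ} (h : ActM aV P Q τ a b c d) (ha : (N : ℤ) ∣ a - a')
    (hb : (N : ℤ) ∣ b - b') (hc : (N : ℤ) ∣ c - c') (hd : (N : ℤ) ∣ d - d') :
    ActM aV P Q τ a' b' c' d' := by
  constructor
  · rw [h.1, smul_congr hB.hP ha, smul_congr hB.hQ hc]
  · rw [h.2, smul_congr hB.hP hb, smul_congr hB.hQ hd]

theorem ActM.inv {aV : G → V →+ V} (mulV : ∀ σ τ x, aV (σ * τ) x = aV σ (aV τ x))
    (oneV : ∀ x, aV 1 x = x) {P Q : V} {N : ℕ} (hB : Bas N P Q) {τ : G}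
    {a b c d : ℤ} (h : ActM aV P Q τ a b c d) (hdet : (N : ℤ) ∣ a * d - b * c - 1) :
    ActM aV P Q τ⁻¹ d (-b) (-c) a := by
  have e1 : (a * d - b * c) • P = P := by
    have := smul_congr hB.hP (a := a * d - b * c) (b := 1) hdet
    rw [this, one_smul]
  have e2 : (a * d - b * c) • Q = Q := by
    have := smul_congr hB.hQ (a := a * d - b * c) (b := 1) hdet
    rw [this, one_smul]
  have inv1 : ∀ x, aV τ⁻¹ (aV τ x) = x := by
    intro x
    rw [← mulV, inv_mul_cancel, oneV]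
  constructor
  · have : aV τ (d • P + (-c) • Q) = P := by
      rw [map_add, map_zsmul, map_zsmul, h.1, h.2]
      have : d • (a • P + c • Q) + (-c) • (b • P + d • Q) = (a * d - b * c) • P := by module
      rw [this, e1]
    rw [← inv1 (d • P + (-c) • Q), this]
  · have : aV τ ((-b) • P + a • Q) = Q := by
      rw [map_add, map_zsmul, map_zsmul, h.1, h.2]
      have : (-b) • (a • P + c • Q) + a • (b • P + d • Q) = (a * d - b * c) • Q := by module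
      rw [this, e2]
    rw [← inv1 ((-b) • P + a • Q), this]

/-- the transvections are in all members of the derived series -/
theorem derived_act {aV : G → V →+ V} (mulV : ∀ σ τ x, aV (σ * τ) x = aV σ (aV τ x))
    (oneV : ∀ x, aV 1 x = x) {P Q : V} {N : ℕ} (hB : Bas N P Q) {s t : ℤ}
    (hs : (N : ℤ) ∣ 2 * s - 1) (ht : (N : ℤ) ∣ 3 * t - 1)
    (h0 : ∀ x : ℤ, (∃ τ, ActM aV P Q τ 1 x 0 1) ∧ ∃ τ, ActM aV P Q τ 1 0 x 1) (n : ℕ) :
    ∀ x : ℤ, (∃ τ ∈ derivedSeries G n, ActM aV P Q τ 1 x 0 1) ∧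
      ∃ τ ∈ derivedSeries G n, ActM aV P Q τ 1 0 x 1 := by
  obtain ⟨s', hs'⟩ := hs
  obtain ⟨t', ht'⟩ := ht
  induction n with
  | zero =>
    intro x
    obtain ⟨⟨τ, h1⟩, ⟨τ', h2⟩⟩ := h0 x
    exact ⟨⟨τ, by rw [derivedSeries_zero]; exact Subgroup.mem_top _, h1⟩,
      ⟨τ', by rw [derivedSeries_zero]; exact Subgroup.mem_top _, h2⟩⟩
  | succ n ih =>
    -- the diagonal matrix
    obtain ⟨η, hη, hdiag⟩ : ∃ η ∈ derivedSeries G n, ActM aV P Q η 2 0 0 s := by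
      obtain ⟨⟨τ₁, m₁, h₁⟩, -⟩ := ih 2
      obtain ⟨-, ⟨τ₂, m₂, h₂⟩⟩ := ih (-s)
      obtain ⟨⟨τ₃, m₃, h₃⟩, -⟩ := ih (-1)
      obtain ⟨-, ⟨τ₄, m₄, h₄⟩⟩ := ih 1
      have h5 := ActM.mul mulV (ActM.mul mulV (ActM.mul mulV (ActM.mul mulV (ActM.mul mulV h₁ h₂)
        h₁) h₃) h₄) h₃
      refine ⟨τ₁ * τ₂ * τ₁ * τ₃ * τ₄ * τ₃, ?_, ?_⟩
      · exact Subgroup.mul_mem _ (Subgroup.mul_mem _ (Subgroup.mul_mem _ (Subgroup.mul_mem _
          (Subgroup.mul_mem _ m₁ m₂) m₁) m₃) m₄) m₃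
      · refine h5.congr hB ?_ ?_ ?_ ?_
        · exact ⟨-2 * s', by linear_combination (-2) * hs'⟩
        · exact ⟨s', by linear_combination hs'⟩
        · exact ⟨-s', by linear_combination (-1) * hs'⟩
        · exact ⟨0, by ring⟩
    have hdet : (N : ℤ) ∣ 2 * s - 0 * 0 - 1 := ⟨s', by linear_combination hs'⟩
    have hdi := ActM.inv mulV oneV hB hdiag hdet
    intro x
    constructor
    · obtain ⟨⟨τ, m, h⟩, -⟩ := ih (t * x)
      have hi := ActM.inv mulV oneV hB h ⟨0, by ring⟩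
      refine ⟨η * τ * η⁻¹ * τ⁻¹, ?_, ?_⟩
      · rw [derivedSeries_succ]
        exact Subgroup.commutator_mem_commutator hη m
      · refine (ActM.mul mulV (ActM.mul mulV (ActM.mul mulV hdiag h) hdi) hi).congr hB ?_ ?_ ?_ ?_
        · exact ⟨s', by linear_combination hs'⟩
        · exact ⟨t' * x - s' * (t * x), by
            linear_combination x * ht' - (t * x) * hs'⟩
        · exact ⟨0, by ring⟩
        · exact ⟨s', by linear_combination hs'⟩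
    · obtain ⟨-, ⟨τ, m, h⟩⟩ := ih (t * x)
      have hi := ActM.inv mulV oneV hB h ⟨0, by ring⟩
      have hdd := ActM.inv mulV oneV hB hdi ⟨s', by linear_combination hs'⟩
      refine ⟨η⁻¹ * τ * (η⁻¹)⁻¹ * τ⁻¹, ?_, ?_⟩
      · rw [derivedSeries_succ]
        exact Subgroup.commutator_mem_commutator (Subgroup.inv_mem _ hη) m
      · refine (ActM.mul mulV (ActM.mul mulV (ActM.mul mulV hdi h) hdd) hi).congr hB ?_ ?_ ?_ ?_
        · exact ⟨s', by linear_combination hs'⟩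
        · exact ⟨0, by ring⟩
        · exact ⟨t' * x - s' * (t * x), by
            linear_combination x * ht' - (t * x) * hs'⟩
        · exact ⟨s', by linear_combination hs'⟩

/-- a unit in an arithmetic progression -/
theorem unit_prog {a b : ℤ} {N : ℕ} (hN : 0 < N)
    (h : ∀ l : ℕ, l.Prime → l ∣ N → ¬ (l : ℤ) ∣ a ∨ ¬ (l : ℤ) ∣ b) :
    ∃ x : ℤ, ∀ l : ℕ, l.Prime → l ∣ N → ¬ (l : ℤ) ∣ a + x * b := by
  classical
  obtain ⟨T, hT⟩ : ∃ T : Finset ℕ, ∀ q, q ∈ T ↔ (q.Prime ∧ q ∣ N ∧ ¬ (q : ℤ) ∣ a) := by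
    refine ⟨N.primeFactors.filter (fun q : ℕ => ¬ (q : ℤ) ∣ a), fun q => ?_⟩
    rw [Finset.mem_filter, Nat.mem_primeFactors]
    constructor
    · rintro ⟨⟨h1, h2, -⟩, h3⟩
      exact ⟨h1, h2, h3⟩
    · rintro ⟨h1, h2, h3⟩
      exact ⟨⟨h1, h2, hN.ne'⟩, h3⟩
  obtain ⟨π, hπ⟩ : ∃ π : ℕ, π = ∏ q ∈ T, q := ⟨_, rfl⟩
  refine ⟨(π : ℤ), ?_⟩
  intro l hl hlN hd
  have hpp : _root_.Prime (l : ℤ) := Nat.prime_iff_prime_int.1 hl
  by_cases ha : (l : ℤ) ∣ a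
  · have hb : ¬ (l : ℤ) ∣ b := by
      rcases h l hl hlN with h1 | h1
      · exact absurd ha h1
      · exact h1
    have h2 := (dvd_add_right ha).1 hd
    rcases hpp.dvd_or_dvd h2 with h3 | h3
    · have h4 : l ∣ ∏ q ∈ T, q := by
        rw [← hπ]
        exact_mod_cast h3
      obtain ⟨q, hq, hlq⟩ := (Prime.dvd_finsetProd_iff hl.prime _).1 h4
      obtain ⟨hq1, -, hq2⟩ := (hT q).1 hq
      have := (Nat.prime_dvd_prime_iff_eq hl hq1).1 hlq
      rw [← this] at hq2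
      exact hq2 ha
    · exact hb h3
  · have h4 : l ∣ π := by
      rw [hπ]
      exact Finset.dvd_prod_of_mem _ ((hT l).2 ⟨hl, hlN, ha⟩)
    have h5 : (l : ℤ) ∣ (π : ℤ) := by
      exact_mod_cast h4
    exact ha ((dvd_add_left (Dvd.dvd.mul_right h5 b)).1 hd)

/-- **many conjugates by members of the derived series** -/
theorem derived_family {aV : G → V →+ V} (mulV : ∀ σ τ x, aV (σ * τ) x = aV σ (aV τ x))
    (oneV : ∀ x, aV 1 x = x) {P Q : V} {N : ℕ} (hN : 0 < N) (h2 : ¬ 2 ∣ N) (h3 : ¬ 3 ∣ N)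
    {S : Set G} (h : SLB N P Q aV S) {y : V} (hy : addOrderOf y = N) (n : ℕ) :
    ∃ σ : Fin N → G, (∀ i, σ i ∈ derivedSeries G n) ∧
      ∀ i j, aV (σ i) y ∈ AddSubgroup.zmultiples (aV (σ j) y) → i = j := by
  have hcop : ∀ p : ℕ, p.Prime → ¬ p ∣ N → ∃ s : ℤ, (N : ℤ) ∣ p * s - 1 := by
    intro p hp hpN
    obtain ⟨u, v, huv⟩ := (Nat.isCoprime_iff_coprime.2 ((Nat.Prime.coprime_iff_not_dvd hp).2 hpN) :
      IsCoprime (p : ℤ) (N : ℤ))
    exact ⟨u, -v, by linear_combination huv⟩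
  obtain ⟨s, hs⟩ := hcop 2 Nat.prime_two h2
  obtain ⟨t, ht⟩ := hcop 3 Nat.prime_three h3
  push_cast at hs ht
  have hd := derived_act mulV oneV h.bas hs ht (fun x => ⟨by
      obtain ⟨σ, -, h1, h2⟩ := h.all 1 x 0 1 ⟨0, by ring⟩
      exact ⟨σ, h1, h2⟩, by
      obtain ⟨σ, -, h1, h2⟩ := h.all 1 0 x 1 ⟨0, by ring⟩
      exact ⟨σ, h1, h2⟩⟩) n
  have hNy : (N : ℤ) • y = 0 := by rw [natCast_zsmul, ← hy, addOrderOf_nsmul_eq_zero]
  obtain ⟨a, b, hab⟩ := h.bas.span y hNy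
  have hprim : ∀ l : ℕ, l.Prime → l ∣ N → ¬ (l : ℤ) ∣ a ∨ ¬ (l : ℤ) ∣ b := by
    intro l hl hlN
    by_contra hcon
    push Not at hcon
    obtain ⟨⟨a', ha'⟩, ⟨b', hb'⟩⟩ := hcon
    obtain ⟨m, hm⟩ := hlN
    have hm0 : 0 < m := Nat.pos_of_ne_zero (by rintro rfl; omega)
    have h5 : m • y = 0 := by
      rw [← natCast_zsmul, hab, ha', hb']
      have : (m : ℤ) • (((l : ℤ) * a') • P + ((l : ℤ) * b') • Q) =
          a' • ((l * m : ℤ) • P) + b' • ((l * m : ℤ) • Q) := by module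
      rw [this]
      have e : (l : ℤ) * m = (N : ℤ) := by rw [hm]; push_cast; rfl
      rw [e, h.bas.hP, h.bas.hQ, smul_zero, smul_zero, add_zero]
    have h6 := Nat.le_of_dvd hm0 (addOrderOf_dvd_of_nsmul_eq_zero h5)
    rw [hy, hm] at h6
    have h7 := hl.two_le
    nlinarith
  obtain ⟨x, hx⟩ := unit_prog hN hprim
  obtain ⟨⟨ρ, mρ, hρ⟩, -⟩ := hd x
  have hex : ∀ z : ℤ, ∃ τ ∈ derivedSeries G n, ActM aV P Q τ 1 0 z 1 := fun z => (hd z).2
  choose τ mτ hτ using hex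
  refine ⟨fun i => τ ((i : ℕ) : ℤ) * ρ, fun i => Subgroup.mul_mem _ (mτ _) mρ, ?_⟩
  intro i j hij
  have hij' : aV (τ ((i : ℕ) : ℤ) * ρ) y ∈
      AddSubgroup.zmultiples (aV (τ ((j : ℕ) : ℤ) * ρ) y) := hij
  have k1 : ∀ z : ℤ, aV (τ z * ρ) y = (a + x * b) • P + (z * (a + x * b) + b) • Q := by
    intro z
    rw [mulV, hab, map_add, map_zsmul, map_zsmul, hρ.1, hρ.2, map_add, map_zsmul, map_zsmul,
      map_add, map_add, map_zsmul, map_zsmul, map_zsmul, map_zsmul, (hτ z).1, (hτ z).2]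
    module
  rw [k1, k1] at hij'
  obtain ⟨m, hm⟩ := AddSubgroup.mem_zmultiples_iff.1 hij'
  obtain ⟨A, hA⟩ : ∃ A, A = a + x * b := ⟨_, rfl⟩
  rw [← hA] at hm
  have h5 : (m * A - A) • P + (m * (((j : ℕ) : ℤ) * A + b) - (((i : ℕ) : ℤ) * A + b)) • Q = 0 := by
    have : (m * A - A) • P + (m * (((j : ℕ) : ℤ) * A + b) - (((i : ℕ) : ℤ) * A + b)) • Q =
        m • (A • P + (((j : ℕ) : ℤ) * A + b) • Q) - (A • P + (((i : ℕ) : ℤ) * A + b) • Q) := by
      module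
    rw [this, hm, sub_self]
  obtain ⟨⟨c1, h6⟩, ⟨c2, h7⟩⟩ := h.bas.ind _ _ h5
  have hAc : IsCoprime (N : ℤ) A := by
    rw [Int.isCoprime_iff_gcd_eq_one]
    by_contra hne
    obtain ⟨l, hl, hdvd⟩ := Nat.exists_prime_and_dvd hne
    have g1 : (l : ℤ) ∣ (N : ℤ) := (Int.natCast_dvd_natCast.2 hdvd).trans (Int.gcd_dvd_left _ _)
    have g2 : (l : ℤ) ∣ A := (Int.natCast_dvd_natCast.2 hdvd).trans (Int.gcd_dvd_right _ _)
    rw [hA] at g2
    exact hx l hl (by exact_mod_cast g1) g2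
  have h8 : (N : ℤ) ∣ A * (A * (((j : ℕ) : ℤ) - ((i : ℕ) : ℤ))) := by
    refine ⟨A * c2 - (((j : ℕ) : ℤ) * A + b) * c1, ?_⟩
    linear_combination A * h7 - (((j : ℕ) : ℤ) * A + b) * h6
  have h9 := hAc.dvd_of_dvd_mul_left (hAc.dvd_of_dvd_mul_left h8)
  have h10 : ((j : ℕ) : ℤ) - ((i : ℕ) : ℤ) = 0 := by
    apply Int.eq_zero_of_abs_lt_dvd h9
    have hi := i.2
    have hj := j.2
    rw [abs_lt]
    constructor <;> omega
  apply Fin.ext
  omega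

end

end Pool.Agent.N495.GO
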