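import Pool.Agent.N495.GO.Sol

/-!
Invariants of isogenous curves on curves with one coordinate in the maximal solvable extension
(helper495).
-/

set_option autoImplicit false

namespace Pool.Agent.N495.GO

open WeierstrassCurve NumberField
open Pool.Agent.H901R3.MS Pool.Agent.W275.FM Pool.Agent.Y673.Loc Pool.Agent.Y673.FM
open Pool.Agent.Q19.SU Pool.Agent.N495.TS

open scoped Classical in
/-- the number of conjugates is at most the degree of a relation -/
theorem count_le3 {k : Type} [Field k] [NumberField k] {K : Type} [Field K] [NumberField K]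
    [Algebra k K] [FiniteDimensional k K] {A B A₂ B₂ : K}
    {e : AlgebraicClosure K ≃+* AlgebraicClosure k}
    {s : K →ₐ[k] AlgebraicClosure k} {A₀ B₀ : k} {u : AlgebraicClosure k}
    {ψ : EP A B ≃+ EP A₀ B₀} (hb : Base A B e s A₀ B₀ u ψ) (hL : LQ A₀ B₀)
    (hD₂ : 4 * A₂ ^ 3 + 27 * B₂ ^ 2 ≠ 0) (f₂ : EP A B →+ EP A₂ B₂) (hf₂ : Function.Surjective f₂)
    (hfe₂ : ∀ (σ : AlgebraicClosure K ≃ₐ[K] AlgebraicClosure K) (x : EP A B),
      f₂ (act A B σ x) = act A₂ B₂ σ (f₂ x))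
    {y₂ : EP A B} (hy₂ : ∀ x, f₂ x = 0 ↔ x ∈ AddSubgroup.zmultiples y₂)
    (hfin₂ : IsOfFinAddOrder y₂) {z : K}
    {k' : IntermediateField k K} {F : Polynomial (Polynomial k')}
    (hF : F.map (Polynomial.aeval z : Polynomial k' →ₐ[k'] K).toRingHom ≠ 0)
    (hroot : (F.map (Polynomial.aeval z : Polynomial k' →ₐ[k'] K).toRingHom).eval
      (jv A₂ B₂) = 0) {ι : Type} [Fintype ι]
    (σ : ι → (AlgebraicClosure k ≃ₐ[k] AlgebraicClosure k))
    (hfix : ∀ i, σ i (s z) = s z)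
    (h3 : ∀ i j, act A₀ B₀ (σ i) (ψ y₂) ∈ AddSubgroup.zmultiples (act A₀ B₀ (σ j) (ψ y₂)) →
      i = j) : Fintype.card ι ≤ Module.finrank k k' * F.natDegree := by
  obtain ⟨φ₁, hφ₁⟩ : ∃ φ : Polynomial k' →+* K,
      φ = (Polynomial.aeval z : Polynomial k' →ₐ[k'] K).toRingHom := ⟨_, rfl⟩
  rw [← hφ₁] at hF hroot
  obtain ⟨ρ, hρ⟩ : ∃ ρ : ι → (K →ₐ[k] AlgebraicClosure k), ∀ i x, ρ i x = σ i (s x) :=
    ⟨fun i => ((σ i : AlgebraicClosure k →ₐ[k] AlgebraicClosure k).comp s), fun i x => rfl⟩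
  obtain ⟨g, hg⟩ : ∃ g : ι → Polynomial (AlgebraicClosure k), ∀ i, g i = (F.map φ₁).map
      (ρ i : K →+* AlgebraicClosure k) := ⟨_, fun i => rfl⟩
  have hg0 : ∀ i, g i ≠ 0 := by
    intro i
    rw [hg, Ne, Polynomial.map_eq_zero]
    exact hF
  have hgd : ∀ i, (g i).natDegree ≤ F.natDegree := by
    intro i
    rw [hg]
    exact Polynomial.natDegree_map_le.trans Polynomial.natDegree_map_le
  obtain ⟨ε, hε⟩ : ∃ ε : ι → (k' →ₐ[k] AlgebraicClosure k), ∀ i x, ε i x = ρ i x :=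
    ⟨fun i => (ρ i).comp k'.val, fun i x => rfl⟩
  have hgε : ∀ i i', ε i = ε i' → g i = g i' := by
    intro i i' hii
    rw [hg, hg, Polynomial.map_map, Polynomial.map_map]
    congr 1
    refine Polynomial.ringHom_ext ?_ ?_
    · intro a
      rw [hφ₁]
      show ρ i (Polynomial.aeval z (Polynomial.C a)) =
        ρ i' (Polynomial.aeval z (Polynomial.C a))
      rw [Polynomial.aeval_C]
      have e1 : ρ i (algebraMap k' K a) = ε i a := (hε i a).symm
      have e2 : ρ i' (algebraMap k' K a) = ε i' a := (hε i' a).symm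
      rw [e1, e2, hii]
    · rw [hφ₁]
      show ρ i (Polynomial.aeval z Polynomial.X) =
        ρ i' (Polynomial.aeval z Polynomial.X)
      rw [Polynomial.aeval_X, hρ, hρ, hfix, hfix]
  have hrt : ∀ i, (g i).IsRoot (σ i (s (jv A₂ B₂))) := by
    intro i
    rw [Polynomial.IsRoot.def, hg, Polynomial.eval_map, ← hρ]
    have : (F.map φ₁).eval₂ (ρ i : K →+* AlgebraicClosure k) (ρ i (jv A₂ B₂)) =
        ρ i ((F.map φ₁).eval (jv A₂ B₂)) :=
      Polynomial.eval₂_at_apply (ρ i : K →+* AlgebraicClosure k) (jv A₂ B₂)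
    rw [this, hroot, map_zero]
  have hinj : Function.Injective fun i => σ i (s (jv A₂ B₂)) := by
    intro i i' hii
    apply h3
    have hii' : σ i (s (jv A₂ B₂)) = σ i' (s (jv A₂ B₂)) := hii
    have e1 : ((σ i')⁻¹ * σ i) (s (jv A₂ B₂)) = s (jv A₂ B₂) := by
      show (σ i').symm (σ i (s (jv A₂ B₂))) = _
      rw [hii', AlgEquiv.symm_apply_apply]
    have e2 := fix_stab hb hL hD₂ f₂ hf₂ hfe₂ hy₂ hfin₂ ((σ i')⁻¹ * σ i) e1
    obtain ⟨m, hm⟩ := AddSubgroup.mem_zmultiples_iff.1 e2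
    refine AddSubgroup.mem_zmultiples_iff.2 ⟨m, ?_⟩
    have e3 := congrArg (act A₀ B₀ (σ i')) hm
    rw [map_zsmul, ← act_mul] at e3
    rw [e3]
    congr 1
    group
  have hfdk : FiniteDimensional k k' := IntermediateField.finiteDimensional_left k'
  have hfib : ∀ b ∈ Finset.univ.image ε, (Finset.univ.filter fun i => ε i = b).card ≤
      F.natDegree := by
    intro b hb'
    obtain ⟨i₀, -, rfl⟩ := Finset.mem_image.1 hb'
    have hsub : ((Finset.univ.filter fun i => ε i = ε i₀).image fun i => σ i (s (jv A₂ B₂))) ⊆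
        (g i₀).roots.toFinset := by
      intro x hx
      obtain ⟨i, hi, rfl⟩ := Finset.mem_image.1 hx
      rw [Multiset.mem_toFinset, Polynomial.mem_roots (hg0 i₀),
        ← hgε i i₀ (Finset.mem_filter.1 hi).2]
      exact hrt i
    have hcard := Finset.card_le_card hsub
    rw [Finset.card_image_of_injective _ hinj] at hcard
    exact hcard.trans ((Multiset.toFinset_card_le _).trans
      ((Polynomial.card_roots' (g i₀)).trans (hgd i₀)))
  have h4 := Finset.card_le_mul_card_image Finset.univ F.natDegree hfib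
  have h5 : (Finset.univ.image ε).card ≤ Module.finrank k k' := by
    refine le_trans ?_ (card_algHom_le_finrank k k' (AlgebraicClosure k))
    rw [Nat.card_eq_fintype_card]
    exact Finset.card_le_univ _
  rw [Finset.card_univ] at h4
  exact h4.trans (by rw [mul_comm]; exact Nat.mul_le_mul_right _ h5)

/-- members of the derived series fix the elements with solvable Galois group -/
theorem derived_fix {k Ω : Type} [Field k] [Field Ω] [Algebra k Ω] [IsAlgClosed Ω] {z : Ω}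
    (hz : IsIntegral k z) (hs : IsSolvable (minpoly k z).Gal) :
    ∃ n : ℕ, ∀ τ ∈ derivedSeries (Ω ≃ₐ[k] Ω) n, τ z = z := by
  haveI : Fact (((minpoly k z).map (algebraMap k Ω)).Splits) := ⟨IsAlgClosed.splits _⟩
  obtain ⟨n, hn⟩ := hs.solvable
  refine ⟨n, fun τ hτ => ?_⟩
  have h1 : Polynomial.Gal.restrict (minpoly k z) Ω τ ∈ derivedSeries (minpoly k z).Gal n :=
    map_derivedSeries_le_derivedSeries (Polynomial.Gal.restrict (minpoly k z) Ω) n ⟨τ, hτ, rfl⟩
  rw [hn, Subgroup.mem_bot] at h1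
  have hmem : z ∈ (minpoly k z).rootSet Ω := by
    rw [Polynomial.mem_rootSet]
    exact ⟨minpoly.ne_zero hz, minpoly.aeval k z⟩
  have h2 := Polynomial.Gal.restrict_smul (p := minpoly k z) (E := Ω) τ ⟨z, hmem⟩
  rw [h1, one_smul] at h2
  exact h2.symm

open scoped Classical in
/-- **one coordinate in the maximal solvable extension** -/
theorem go_sol (k : Type) [Field k] [NumberField k] (K : Type) [Field K] [NumberField K]
    [Algebra k K] [FiniteDimensional k K] {A B A₂ B₂ : K}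
    (hD : 4 * A ^ 3 + 27 * B ^ 2 ≠ 0)
    (hD₂ : 4 * A₂ ^ 3 + 27 * B₂ ^ 2 ≠ 0) {j : k} {N : ℕ} (hN : 0 < N) (h2 : ¬ 2 ∣ N) (h3 : ¬ 3 ∣ N)
    (hj : ∀ A₀ B₀ : k, 4 * A₀ ^ 3 + 27 * B₀ ^ 2 ≠ 0 → jv A₀ B₀ = j →
      LQ A₀ B₀ ∧ HasSLn A₀ B₀ N)
    (hjv : jv A B = algebraMap k K j) (f₂ : EP A B →+ EP A₂ B₂) (hf₂ : Function.Surjective f₂)
    (hfe₂ : ∀ (σ : AlgebraicClosure K ≃ₐ[K] AlgebraicClosure K) (x : EP A B),
      f₂ (act A B σ x) = act A₂ B₂ σ (f₂ x))
    {y₂ : EP A B} (hy₂ : ∀ x, f₂ x = 0 ↔ x ∈ AddSubgroup.zmultiples y₂)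
    (ho₂ : addOrderOf y₂ = N) {z : K} (hz : IsSolvable (minpoly k z).Gal)
    {k' : IntermediateField k K} {F : Polynomial (Polynomial k')}
    (hF : F.map (Polynomial.aeval z : Polynomial k' →ₐ[k'] K).toRingHom ≠ 0)
    (hroot : (F.map (Polynomial.aeval z : Polynomial k' →ₐ[k'] K).toRingHom).eval
      (jv A₂ B₂) = 0) :
    N ≤ Module.finrank k k' * F.natDegree := by
  have hfin₂ : IsOfFinAddOrder y₂ := by
    rw [← addOrderOf_pos_iff, ho₂]
    exact hN
  obtain ⟨e, s, A₀, B₀, u, ψ, hD0, hj0, hb⟩ := base_exists hD hjv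
  obtain ⟨hL, P₀, Q₀, hB, hsl⟩ := hj A₀ B₀ hD0 hj0
  have hSLB : SLB N P₀ Q₀ (fun σ => act A₀ B₀ σ) Set.univ := by
    refine ⟨hB, fun x y z w h => ?_⟩
    obtain ⟨σ, h1, h2⟩ := hsl x y z w h
    exact ⟨σ, Set.mem_univ _, h1, h2⟩
  have o₂ : addOrderOf (ψ y₂) = N := (addOrderOf_injective ψ.toAddMonoidHom ψ.injective y₂).trans ho₂
  have hmin : minpoly k (s z) = minpoly k z := minpoly.algHom_eq s s.toRingHom.injective z
  obtain ⟨n, hn⟩ := derived_fix (k := k) (z := s z) (Algebra.IsIntegral.isIntegral _)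
    (by rw [hmin]; exact hz)
  obtain ⟨σ, m1, m2⟩ := derived_family (aV := fun σ => act A₀ B₀ σ)
    (fun σ τ x => act_mul A₀ B₀ σ τ x) (fun x => act_one A₀ B₀ x) hN h2 h3 hSLB o₂ n
  have h4 := count_le3 hb hL hD₂ f₂ hf₂ hfe₂ hy₂ hfin₂ hF hroot σ (fun i => hn _ (m1 i)) m2
  rw [Fintype.card_fin] at h4
  exact h4

end Pool.Agent.N495.GO
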