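import Pool.Agent.N495.GO.Curve2

/-!
Invariants with large images outside one prime (helper495).
-/

set_option autoImplicit false

namespace Pool.Agent.N495.GO

open WeierstrassCurve NumberField IsDedekindDomain
open Pool.Agent.Y673.Loc Pool.Agent.Y673.SL
open Pool.Agent.Q19.SU Pool.Agent.N495.TS
open Pool.Agent.H901R3.MS Pool.Agent.W275.FM
open Pool.Agent.TH876.Loc (Pr)

section
variable {k : Type} [Field k] [NumberField k]

/-- the image contains all automorphisms of determinant one for all levels prime to `p` and for all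
powers of `p`, for all curves with invariant `j` -/
def UJ (p : ℕ) (j : k) : Prop :=
  p.Prime ∧ ∀ A B : k, 4 * A ^ 3 + 27 * B ^ 2 ≠ 0 → jv A B = j →
    (∀ N : ℕ, 1 ≤ N → ¬ p ∣ N → HasSLn A B N) ∧ ∀ m : ℕ, HasSLn A B (p ^ m)

theorem uj_of (hS : S_SERRE) {t : ℝ} {j : k} (h0 : j ≠ 0) (h : AllSLn t j)
    (hsp : 0 < Pool.Agent.Y733.LS.sp j) : ∃ p, UJ p j := by
  obtain ⟨v, hv⟩ := exists_sp hsp
  obtain ⟨k1, k2, k3⟩ := adv_sp h0 hv
  obtain ⟨p, hp, hp1, hpN⟩ := res_char v
  have h5 : 5 ≤ p := by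
    by_contra hlt
    have h2 := hp.two_le
    interval_cases p
    · have : (adv k v).v ((2 : ℕ) : k) = 0 := by exact_mod_cast k1
      omega
    · have : (adv k v).v ((3 : ℕ) : k) = 0 := by exact_mod_cast k2
      omega
    · exact absurd hp (by norm_num)
  refine ⟨p, hp, fun A B hD hj => ⟨?_, ?_⟩⟩
  · intro N hN hpd
    exact h A B hD hj N hN (Or.inr (Or.inr ⟨v, hv, hpN N hN hpd⟩))
  · exact serre hS hD hp h5 (h A B hD hj p hp.one_le (Or.inl hp))

omit [NumberField k] in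
theorem UJ.lq {p : ℕ} {j : k} (h : UJ p j) {A B : k} (hD : 4 * A ^ 3 + 27 * B ^ 2 ≠ 0)
    (hj : jv A B = j) : LQ A B := ⟨p, h.1, (h.2 A B hD hj).1, (h.2 A B hD hj).2⟩

end

end Pool.Agent.N495.GO
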