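import Pool.Agent.N495.GO.Mod

/-!
Coordinates under isomorphisms, and sums over kernels (helper495).
-/

set_option autoImplicit false

namespace Pool.Agent.N495.GO

open WeierstrassCurve NumberField
open Pool.Agent.H901R3.MS Pool.Agent.W275.FM Pool.Agent.Y673.Loc Pool.Agent.Y673.FM
open Pool.Agent.Q19.SU Pool.Agent.N495.TS

/-- the first coordinate, and `0` for the point at infinity -/
def xc {F : Type} [Field F] {W : WeierstrassCurve.Affine F} : W.Point → F
  | Affine.Point.zero => 0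
  | Affine.Point.some x _ _ => x

open scoped Classical in
theorem xc_eqv {R Ω : Type} [Field R] [Field Ω] [Algebra R Ω] (a b : R)
    (P : ((CV a b).baseChange Ω).toAffine.Point) : xc (eqv a b Ω P) = xc P := by
  rcases P with _ | ⟨x, y, h⟩
  · have e0 : (Affine.Point.zero : ((CV a b).baseChange Ω).toAffine.Point) = 0 := rfl
    rw [e0, map_zero]
    rfl
  · have h' : (CV (ca Ω a) (ca Ω b)).toAffine.Nonsingular x y := by rw [← bc]; exact h
    have e1 : eqv a b Ω (Affine.Point.some x y h) = Affine.Point.some x y h' :=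
      castPt_some (bc a b Ω) x y h h'
    rw [e1]
    rfl

open scoped Classical in
theorem xc_map {R Ω : Type} [Field R] [Field Ω] [Algebra R Ω] (a b : R) (τ : Ω →ₐ[R] Ω)
    (P : ((CV a b).baseChange Ω).toAffine.Point) :
    xc (Affine.Point.map (W' := CV a b) (R := R) (S := R) τ P) = τ (xc P) := by
  rcases P with _ | ⟨x, y, h⟩
  · exact (map_zero τ).symm
  · rfl

open scoped Classical in
/-- an isomorphism with a curve over `R` -/
theorem iso_exists2 {F Ω K R : Type} [Field F] [Field Ω] [Field K] [Field R] [Algebra K F]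
    [Algebra R Ω] [CharZero F] [CharZero Ω] (e : F ≃+* Ω) {A B : K} {a b : R} {u : Ω} (hu : u ≠ 0)
    (hA : e (algebraMap K F A) = u ^ 4 * algebraMap R Ω a)
    (hB : e (algebraMap K F B) = u ^ 6 * algebraMap R Ω b) :
    ∃ ψ : ((CV A B).baseChange F).toAffine.Point ≃+ ((CV a b).baseChange Ω).toAffine.Point,
      (∀ (σ : F →ₐ[K] F) (τ : Ω →ₐ[R] Ω), (∀ x, τ (e x) = e (σ x)) → τ u = u →
        ∀ P, ψ (Affine.Point.map (W' := CV A B) (R := K) (S := K) σ P) =
          Affine.Point.map (W' := CV a b) (R := R) (S := R) τ (ψ P)) ∧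
      ∀ P, e (xc P) = u ^ 2 * xc (ψ P) := by
  have hA1 : (e : F →+* Ω) (ca F A) = u ^ 4 * ca Ω a := hA
  have hB1 : (e : F →+* Ω) (ca F B) = u ^ 6 * ca Ω b := hB
  have hu2 : u ^ 2 ≠ 0 := pow_ne_zero _ hu
  have hu3 : u ^ 3 ≠ 0 := pow_ne_zero _ hu
  obtain ⟨v, hv⟩ : ∃ v : F, v = e.symm u⁻¹ := ⟨_, rfl⟩
  have hev : e v = u⁻¹ := by rw [hv, RingEquiv.apply_symm_apply]
  have hv0 : v ≠ 0 := by
    intro h
    rw [h, map_zero] at hev
    exact inv_ne_zero hu hev.symm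
  have hA2 : (e.symm : Ω →+* F) (ca Ω a) = v ^ 4 * ca F A := by
    apply e.injective
    rw [map_mul, map_pow, hev]
    show e (e.symm (ca Ω a)) = _
    rw [RingEquiv.apply_symm_apply]
    have : e (ca F A) = u ^ 4 * ca Ω a := hA
    rw [this]
    field_simp
  have hB2 : (e.symm : Ω →+* F) (ca Ω b) = v ^ 6 * ca F B := by
    apply e.injective
    rw [map_mul, map_pow, hev]
    show e (e.symm (ca Ω b)) = _
    rw [RingEquiv.apply_symm_apply]
    have : e (ca F B) = u ^ 6 * ca Ω b := hB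
    rw [this]
    field_simp
  have hsurj : Function.Surjective (tw (e : F →+* Ω) u two_ne_zero hu hA1 hB1) := by
    intro P
    refine ⟨tw (e.symm : Ω →+* F) v two_ne_zero hv0 hA2 hB2 P, ?_⟩
    rcases P with _ | ⟨x, y, h⟩
    · have e0 : (Affine.Point.zero : Pt (ca Ω a) (ca Ω b)) = 0 := rfl
      rw [e0, map_zero, map_zero]
    · rw [tw_some, tw_some]
      apply pt_ext'
      · show e (e.symm x / v ^ 2) / u ^ 2 = x
        rw [map_div₀, map_pow, hev, RingEquiv.apply_symm_apply]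
        field_simp
      · show e (e.symm y / v ^ 3) / u ^ 3 = y
        rw [map_div₀, map_pow, hev, RingEquiv.apply_symm_apply]
        field_simp
  obtain ⟨T, hT⟩ : ∃ T : Pt (ca F A) (ca F B) ≃+ Pt (ca Ω a) (ca Ω b), ∀ P,
      T P = tw (e : F →+* Ω) u two_ne_zero hu hA1 hB1 P :=
    ⟨AddEquiv.ofBijective (tw (e : F →+* Ω) u two_ne_zero hu hA1 hB1) ⟨tw_inj _ _ _ _ _ _, hsurj⟩,
      fun P => rfl⟩
  refine ⟨(eqv A B F).trans (T.trans (eqv a b Ω).symm), ?_, ?_⟩
  · intro σ τ hστ hτu P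
    apply (eqv a b Ω).injective
    rw [map_eqv]
    show eqv a b Ω ((eqv a b Ω).symm (T (eqv A B F _))) =
      mp a b τ (eqv a b Ω ((eqv a b Ω).symm (T (eqv A B F P))))
    rw [AddEquiv.apply_symm_apply, AddEquiv.apply_symm_apply, map_eqv]
    rcases eqv A B F P with _ | ⟨x, y, hxy⟩
    · have e0 : (Affine.Point.zero : Pt (ca F A) (ca F B)) = 0 := rfl
      rw [e0, map_zero, map_zero, map_zero]
    · rw [mp_some, hT, hT, tw_some, tw_some, mp_some]
      apply pt_ext'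
      · show e (σ x) / u ^ 2 = τ (e x / u ^ 2)
        rw [map_div₀, map_pow, hτu, hστ]
      · show e (σ y) / u ^ 3 = τ (e y / u ^ 3)
        rw [map_div₀, map_pow, hτu, hστ]
  · intro P
    rw [← xc_eqv A B P, ← xc_eqv a b]
    show _ = u ^ 2 * xc (eqv a b Ω ((eqv a b Ω).symm (T (eqv A B F P))))
    rw [AddEquiv.apply_symm_apply]
    rcases eqv A B F P with _ | ⟨x, y, hxy⟩
    · have e0 : (Affine.Point.zero : Pt (ca F A) (ca F B)) = 0 := rfl
      rw [e0, map_zero]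
      show e 0 = u ^ 2 * 0
      rw [map_zero, mul_zero]
    · rw [hT, tw_some]
      show e x = u ^ 2 * (e x / u ^ 2)
      field_simp

open scoped Classical in
/-- the sums over the points `≠ 0` of `H` of `3 x² + a` and of `5 x³ + 3 a x + 2 b` -/
noncomputable def ts {Ω : Type} [Field Ω] {W : WeierstrassCurve.Affine Ω} (a : Ω) (H : Set W.Point) :
    Ω := ∑ᶠ Q ∈ H \ {0}, (3 * (xc Q) ^ 2 + a)

open scoped Classical in
/-- the second sum -/
noncomputable def ws {Ω : Type} [Field Ω] {W : WeierstrassCurve.Affine Ω} (a b : Ω)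
    (H : Set W.Point) : Ω := ∑ᶠ Q ∈ H \ {0}, (5 * (xc Q) ^ 3 + 3 * a * xc Q + 2 * b)

open scoped Classical in
/-- the sums are compatible with homomorphisms -/
theorem sums_map {Ω Ω' : Type} [Field Ω] [Field Ω'] {W : WeierstrassCurve.Affine Ω}
    {W' : WeierstrassCurve.Affine Ω'} (e : Ω →+* Ω') {u : Ω'} {a b : Ω} {a' b' : Ω'}
    (ha : e a = u ^ 4 * a') (hb : e b = u ^ 6 * b') (ψ : W.Point →+ W'.Point)
    (hψ : ∀ P, e (xc P) = u ^ 2 * xc (ψ P)) {H : Set W.Point} {H' : Set W'.Point} (hf : H.Finite)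
    (hb' : Set.BijOn ψ (H \ {0}) (H' \ {0})) :
    e (ts a H) = u ^ 4 * ts a' H' ∧ e (ws a b H) = u ^ 6 * ws a' b' H' := by
  have hfin : (H \ {0}).Finite := hf.subset Set.sdiff_subset
  have hfin' : (H' \ {0}).Finite := by
    rw [← hb'.image_eq]
    exact hfin.image _
  constructor
  · unfold ts
    have h1 : e (∑ᶠ Q ∈ H \ {0}, (3 * (xc Q) ^ 2 + a)) =
        ∑ᶠ Q ∈ H \ {0}, e (3 * (xc Q) ^ 2 + a) :=
      AddMonoidHom.map_finsum_mem _ (e : Ω →+ Ω') hfin
    rw [h1]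
    have h2 : (∑ᶠ Q ∈ H \ {0}, e (3 * (xc Q) ^ 2 + a)) =
        ∑ᶠ Q ∈ H' \ {0}, (u ^ 4 * (3 * (xc Q) ^ 2 + a')) := by
      refine finsum_mem_eq_of_bijOn ψ hb' fun Q _ => ?_
      rw [map_add, map_mul, map_pow, hψ, ha, map_ofNat]
      ring
    rw [h2, mul_finsum_mem' _ _ hfin']
  · unfold ws
    have h1 : e (∑ᶠ Q ∈ H \ {0}, (5 * (xc Q) ^ 3 + 3 * a * xc Q + 2 * b)) =
        ∑ᶠ Q ∈ H \ {0}, e (5 * (xc Q) ^ 3 + 3 * a * xc Q + 2 * b) :=
      AddMonoidHom.map_finsum_mem _ (e : Ω →+ Ω') hfin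
    rw [h1]
    have h2 : (∑ᶠ Q ∈ H \ {0}, e (5 * (xc Q) ^ 3 + 3 * a * xc Q + 2 * b)) =
        ∑ᶠ Q ∈ H' \ {0}, (u ^ 6 * (5 * (xc Q) ^ 3 + 3 * a' * xc Q + 2 * b')) := by
      refine finsum_mem_eq_of_bijOn ψ hb' fun Q _ => ?_
      simp only [map_add, map_mul, map_pow, map_ofNat]
      rw [hψ, ha, hb]
      ring
    rw [h2, mul_finsum_mem' _ _ hfin']

end Pool.Agent.N495.GO
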